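import Pool.Agent.Q37.LV.Odd

set_option autoImplicit false

/-!
# The heights of the odd integers in residue classes, and their averages, to all moduli

The normal law of the heights and the order of their truncated averages hold in the residue classes: on
average over all moduli `q` up to `√N exp ((log N) ^ (1 / 2 - δ))`, with the worst residue class for every
modulus, and in the mean square over all residue classes to all moduli up to a small multiple of `N`. So for
almost all moduli `q` the average of the height over the odd integers below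
`q ^ 2 exp (- (log q) ^ (1 / 2 - δ))` in any residue class is at least of the conjectured order, and the
truncated averages over one such class for a positive proportion of the moduli decide whether all heights
are finite.
-/

namespace Pool.Agent.Results.MP_2b866c_nt.AllResidueClasses

open Filter Topology Finset

/-- `C(m) = (3m+1)/2^e(m)`, `2^e(m)` the largest power of `2` dividing `3m+1` -/
def C (m : ℕ) : ℕ := (3 * m + 1) / 2 ^ padicValNat 2 (3 * m + 1)

/-- the height `h(m)`, the least `k ≥ 1` with `C^k(m) = 1`, and `⊤ = ∞` if there is none -/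
noncomputable def height (m : ℕ) : ℕ∞ := sInf {k : ℕ∞ | ∃ j : ℕ, 1 ≤ j ∧ C^[j] m = 1 ∧ k = j}

/-- `min(h(m), L)`, a natural number -/
noncomputable def truncHeight (m L : ℕ) : ℕ := (min (height m) (L : ℕ∞)).toNat

/-- `2 / log (16/9) * log m + x * log 2 * √(2 log m / (log (4/3))^3)` -/
noncomputable def bound (x : ℝ) (m : ℕ) : ℝ :=
  2 / Real.log (16 / 9) * Real.log m
    + x * (Real.log 2 * Real.sqrt (2 * Real.log m / Real.log (4 / 3) ^ 3))

/-- The distribution function of the standard normal law. -/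
noncomputable def Phi (x : ℝ) : ℝ :=
  ProbabilityTheory.cdf (ProbabilityTheory.gaussianReal 0 1) x

/-- The height of `m` is finite, at most `bound x m` and congruent to `b` modulo `k`. -/
def Level (k : ℕ) (b : ℤ) (x : ℝ) (m : ℕ) : Prop :=
  ∃ h : ℕ, height m = h ∧ (h : ℝ) ≤ bound x m ∧ (h : ℤ) ≡ b [ZMOD k]

/-- The odd integers `1 ≤ m ≤ N`, `m ≡ a` modulo `q`. -/
def Odds (N q : ℕ) (a : ℤ) : Finset ℕ := (Icc 1 N).filter fun m => m % 2 = 1 ∧ (q : ℤ) ∣ (m : ℤ) - a

/-- `√N exp ((log N) ^ (1/2 - δ))` -/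
noncomputable def level (δ : ℝ) (N : ℕ) : ℝ := √ (N : ℝ) * Real.exp (Real.log N ^ (1 / 2 - δ))

/-- `⌊Q ^ 2 exp (- (log Q) ^ (1/2 - δ))⌋` -/
noncomputable def length (δ : ℝ) (Q : ℕ) : ℕ := ⌊(Q : ℝ) ^ 2 * Real.exp (-(Real.log Q ^ (1 / 2 - δ)))⌋₊

/-- `F N m` has the average `V` over the odd `m ≤ N` in residue classes: on average over all moduli beyond the
square root, with any class for every modulus, and in the mean square over all residue classes to all moduli
up to a small multiple of the length. -/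
def AverageInClasses (F : ℕ → ℕ → ℝ) (V : ℝ) : Prop :=
  (∀ δ : ℝ, 0 < δ → ∀ ε : ℝ, 0 < ε → ∃ N₀ : ℕ, ∀ N : ℕ, N₀ ≤ N → ∀ Q : ℕ, 1 ≤ Q → (Q : ℝ) ≤ level δ N →
    ∀ a : ℕ → ℤ, ∑ q ∈ Ico Q (2 * Q), |∑ m ∈ Odds N q (a q), F N m - V * (Odds N q (a q)).card| ≤ ε * N) ∧
  (∀ ε : ℝ, 0 < ε → ∃ η : ℝ, 0 < η ∧ ∃ N₀ : ℕ, ∀ N : ℕ, N₀ ≤ N → ∀ Q : ℕ, 1 ≤ Q → (Q : ℝ) ≤ η * N →
    ∑ q ∈ Ico Q (2 * Q), ∑ a ∈ range q,
      (∑ m ∈ Odds N q ((a : ℕ) : ℤ), F N m - V * (Odds N q ((a : ℕ) : ℤ)).card) ^ 2 ≤ ε * N ^ 2)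

open scoped Classical in
/-- The property `P` has the frequency `l` among the odd integers in residue classes. -/
def FrequencyInClasses (P : ℕ → Prop) (l : ℝ) : Prop := AverageInClasses (fun _ m => if P m then 1 else 0) l

/-! ### proofs -/

open Pool.Agent.Q37.LV Pool.Agent.Q37.BV

open Pool.Agent.H499R2.ND in
theorem height_eq {m h : ℕ} (hh : IsHt m h) : height m = h := by
  unfold height
  apply le_antisymm
  · exact sInf_le ⟨h, hh.1, hh.2.1, rfl⟩
  · refine le_sInf ?_
    rintro k ⟨j, hj, hj1, rfl⟩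
    have : h ≤ j := by
      by_contra hlt
      exact hh.2.2 j hj (by omega) hj1
    exact_mod_cast this

open Pool.Agent.H499R2.ND in
theorem exists_isHt {m j : ℕ} (hj : 1 ≤ j) (h : C^[j] m = 1) : ∃ h, IsHt m h := by
  classical
  have hex : ∃ k, 1 ≤ k ∧ C^[k] m = 1 := ⟨j, hj, h⟩
  refine ⟨Nat.find hex, (Nat.find_spec hex).1, (Nat.find_spec hex).2, fun k hk hlt hk1 => ?_⟩
  exact Nat.find_min hex hlt ⟨hk, hk1⟩

open Pool.Agent.H499R2.ND in
theorem height_top {m : ℕ} (hh : ¬ ∃ h, IsHt m h) : height m = ⊤ := by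
  unfold height
  have : {k : ℕ∞ | ∃ j : ℕ, 1 ≤ j ∧ C^[j] m = 1 ∧ k = j} = ∅ := by
    rw [Set.eq_empty_iff_forall_notMem]
    rintro k ⟨j, hj, hj1, _⟩
    exact hh (exists_isHt hj hj1)
  rw [this, sInf_empty]

open Pool.Agent.H499R2.ND in
theorem height_lt_top_iff {m : ℕ} : height m ≠ ⊤ ↔ ∃ h, IsHt m h := by
  constructor
  · intro h
    by_contra hcon
    exact h (height_top hcon)
  · rintro ⟨h, hh⟩
    rw [height_eq hh]
    exact ENat.natCast_ne_top h

open Pool.Agent.H499R2.ND in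
theorem height_iff {m h : ℕ} : height m = h ↔ IsHt m h := by
  constructor
  · intro hm
    obtain ⟨h', hh'⟩ := height_lt_top_iff.1 (show height m ≠ ⊤ by rw [hm]; exact ENat.natCast_ne_top h)
    have h1 := height_eq hh'
    rw [hm] at h1
    have h2 : h = h' := by exact_mod_cast h1
    rw [h2]; exact hh'
  · exact height_eq

theorem two_log : 2 / Real.log (16 / 9) = 1 / Real.log (4 / 3) := by
  have : Real.log (16 / 9) = 2 * Real.log (4 / 3) := by
    rw [show (16 : ℝ) / 9 = (4 / 3) ^ 2 by norm_num, Real.log_pow]; push_cast; ring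
  rw [this]
  have : Real.log (4 / 3) ≠ 0 := (Real.log_pos (by norm_num)).ne'
  field_simp

theorem bound_eq (x : ℝ) (m : ℕ) : bound x m = Pool.Agent.H499R2.HL.bo x (Real.log m) := by
  unfold bound Pool.Agent.H499R2.HL.bo
  rw [two_log]

/-- finite heights with a property -/
theorem ht_trans {R : ℕ → Prop} {m : ℕ} (hm : 2 ≤ m) (ho : m % 2 = 1) :
    (∃ k, Pool.Agent.H499R2.HL.H k m ∧ R (Pool.Agent.H499R2.LT.odn k m)) ↔ ∃ h : ℕ, height m = h ∧ R h := by
  have h1 := fun h : ℕ => Pool.Agent.H499R2.HL.ht_H (x := m) ho (by omega) h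
  constructor
  · rintro ⟨k, hk, hR⟩
    exact ⟨_, height_iff.2 ((h1 _).2 ⟨k, hk, rfl⟩), hR⟩
  · rintro ⟨h, hh, hR⟩
    obtain ⟨k, hk, rfl⟩ := (h1 h).1 (height_iff.1 hh)
    exact ⟨k, hk, hR⟩

theorem trunc_of {m h L : ℕ} (hh : height m = h) : truncHeight m L = min h L := by
  unfold truncHeight
  rw [hh]
  rcases le_total h L with hl | hl
  · rw [min_eq_left hl, min_eq_left (by exact_mod_cast hl)]
    exact ENat.toNat_natCast _
  · rw [min_eq_right hl, min_eq_right (by exact_mod_cast hl)]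
    exact ENat.toNat_natCast _

theorem trunc_top {m L : ℕ} (hh : height m = ⊤) : truncHeight m L = L := by
  unfold truncHeight
  rw [hh, min_eq_right le_top]
  exact ENat.toNat_natCast _

theorem trunc_le (m L : ℕ) : truncHeight m L ≤ L := by
  by_cases h : height m = ⊤
  · rw [trunc_top h]
  · obtain ⟨k, hk⟩ := ENat.ne_top_iff_exists.1 h
    rw [trunc_of hk.symm]
    exact min_le_right _ _

theorem trunc_le_height (m L : ℕ) : (truncHeight m L : ENNReal) ≤ (height m : ENNReal) := by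
  by_cases h : height m = ⊤
  · rw [h]; simp
  · obtain ⟨k, hk⟩ := ENat.ne_top_iff_exists.1 h
    rw [trunc_of hk.symm, ← hk]
    have : min k L ≤ k := min_le_left _ _
    simp only [ENat.toENNReal_coe]
    exact_mod_cast this

theorem odds_sum (f : ℕ → ℝ) (N q : ℕ) (a : ℤ) : ∑ m ∈ Odds N q a, f m = cfo f N q a := by
  unfold Odds cfo
  rw [sum_filter]

theorem odds_card (N q : ℕ) (a : ℤ) : ((Odds N q a).card : ℝ) = cfo (fun _ => 1) N q a := by
  rw [← odds_sum]
  simp

theorem average_iff (F : ℕ → ℕ → ℝ) (V : ℝ) : AverageInClasses F V ↔ RVO F V := by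
  unfold AverageInClasses RVO Lev Var
  simp only [odds_sum, odds_card]
  exact Iff.rfl

/-- only odd integers matter -/
theorem RVO_congr {F G : ℕ → ℕ → ℝ} {V : ℝ} (h : ∀ N m, 1 ≤ m → m % 2 = 1 → F N m = G N m) (hF : RVO F V) : RVO G V := by
  have e : ∀ N q a, cfo (F N) N q a = cfo (G N) N q a := by
    intro N q a
    unfold cfo
    apply sum_congr rfl
    intro m hm
    rw [mem_Icc] at hm
    by_cases h1 : m % 2 = 1 ∧ (q : ℤ) ∣ (m : ℤ) - a
    · rw [if_pos h1, if_pos h1, h N m hm.1 h1.1]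
    · rw [if_neg h1, if_neg h1]
  unfold RVO at hF ⊢
  simp only [← e]
  exact hF

/-- equivalence for `n ≥ 2` suffices -/
theorem RV_congr2 {P Q : ℕ → Prop} {l : ℝ} (h : ∀ n, 2 ≤ n → (P n ↔ Q n)) (hP : RV P l) : RV Q l :=
  RV_squeeze fun ζ hζ => ⟨P, P, l, l, 2, fun n hn => (h n hn).1, fun n hn => (h n hn).2, hP, hP, by linarith, by linarith,
    by linarith, by linarith⟩

open scoped Classical in
/-- the truncated number of odd terms -/
noncomputable def tr (n L : ℕ) : ℕ :=
  if h : ∃ k, Pool.Agent.H499R2.HL.H k n then min (Pool.Agent.H499R2.LT.odn h.choose n) L else L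

theorem tr_of {n k L : ℕ} (h : Pool.Agent.H499R2.HL.H k n) : tr n L = min (Pool.Agent.H499R2.LT.odn k n) L := by
  have hex : ∃ k, Pool.Agent.H499R2.HL.H k n := ⟨k, h⟩
  unfold tr
  rw [dif_pos hex, Pool.Agent.H499R2.HL.H_unique hex.choose_spec h]

theorem tr_top {n L : ℕ} (h : ¬ ∃ k, Pool.Agent.H499R2.HL.H k n) : tr n L = L := by
  unfold tr
  rw [dif_neg h]

theorem tr_le (n L : ℕ) : tr n L ≤ L := by
  by_cases h : ∃ k, Pool.Agent.H499R2.HL.H k n
  · obtain ⟨k, hk⟩ := h
    rw [tr_of hk]; exact min_le_right _ _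
  · rw [tr_top h]

theorem tr_trunc {m : ℕ} (hm : 2 ≤ m) (ho : m % 2 = 1) (L : ℕ) : truncHeight m L = tr m L := by
  by_cases h : ∃ k, Pool.Agent.H499R2.HL.H k m
  · obtain ⟨k, hk⟩ := h
    rw [tr_of hk]
    exact trunc_of (height_iff.2 ((Pool.Agent.H499R2.HL.ht_H (x := m) ho (by omega) _).2 ⟨k, hk, rfl⟩))
  · rw [tr_top h]
    apply trunc_top
    by_contra hne
    obtain ⟨h', hh'⟩ := height_lt_top_iff.1 hne
    obtain ⟨k, hk, _⟩ := (Pool.Agent.H499R2.HL.ht_H (x := m) ho (by omega) h').1 hh'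
    exact h ⟨k, hk⟩

theorem log_tendsto : Tendsto (fun N : ℕ => Real.log N) atTop atTop :=
  Real.tendsto_log_atTop.comp tendsto_natCast_atTop_atTop

/-- the values of the truncated function at typical integers -/
theorem typ_val {c Λ : ℝ} (hc : 0 < c) (hΛ : c < Λ) {ε : ℝ} (hε : 0 < ε) : ∃ η : ℝ, 0 < η ∧ ∃ N₀ : ℕ, ∀ N : ℕ, N₀ ≤ N →
    ∀ n : ℕ, (N : ℝ) / Real.log N ^ 2 < n → n ≤ N → ∀ o : ℕ, |(o : ℝ) - c * Real.log n| ≤ η * Real.log n →
      |((min o ⌊Λ * Real.log N⌋₊ : ℕ) : ℝ) / Real.log N - c| ≤ ε := by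
  set η : ℝ := min (ε / 2) ((Λ - c) / 2) with hη
  have hη0 : 0 < η := lt_min (by positivity) (by linarith)
  have e1 : η ≤ ε / 2 := min_le_left _ _
  have e2 : η ≤ (Λ - c) / 2 := min_le_right _ _
  have t1 : Tendsto (fun N : ℕ => Real.log (Real.log N) / Real.log N) atTop (𝓝 0) :=
    (Real.isLittleO_log_id_atTop.tendsto_div_nhds_zero).comp log_tendsto
  obtain ⟨N₀, h⟩ := eventually_atTop.1 ((t1.eventually_le_const (show (0 : ℝ) < ε / (4 * c) by positivity)).and
    ((log_tendsto.eventually_ge_atTop (max 1 (2 / (Λ - c)))).and (eventually_ge_atTop 1)))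
  refine ⟨η, hη0, N₀, fun N hN n hn1 hn2 o ho => ?_⟩
  obtain ⟨g1, g2, g3⟩ := h N hN
  have g4 : 1 ≤ Real.log N := (le_max_left _ _).trans g2
  have g5 : 2 / (Λ - c) ≤ Real.log N := (le_max_right _ _).trans g2
  set L := Real.log N with hL
  have hL0 : 0 < L := by linarith
  have hN0 : (0 : ℝ) < N := by exact_mod_cast g3
  have hn0 : (0 : ℝ) < n := lt_of_le_of_lt (by positivity) hn1
  have b1 : L - 2 * Real.log L ≤ Real.log n := by
    have h3 : Real.log (N / L ^ 2) = L - 2 * Real.log L := by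
      rw [Real.log_div hN0.ne' (by positivity), Real.log_pow]
      push_cast; ring
    rw [← h3]
    exact Real.log_le_log (by positivity) hn1.le
  have b2 : Real.log n ≤ L := Real.log_le_log hn0 (by exact_mod_cast hn2)
  rw [div_le_iff₀ hL0] at g1
  rw [div_le_iff₀ (by linarith)] at g5
  obtain ⟨o1, o2⟩ := abs_le.1 ho
  have hn3 : 0 ≤ Real.log n := Real.log_natCast_nonneg n
  have q1 : η * Real.log n ≤ η * L := mul_le_mul_of_nonneg_left b2 hη0.le
  have q2 : c * Real.log n ≤ c * L := mul_le_mul_of_nonneg_left b2 hc.le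
  have q3 : η * L ≤ (Λ - c) / 2 * L := mul_le_mul_of_nonneg_right e2 hL0.le
  have hmin : min o ⌊Λ * L⌋₊ = o := by
    apply min_eq_left
    apply Nat.le_floor
    nlinarith
  rw [hmin]
  have q4 : η * L ≤ ε / 2 * L := mul_le_mul_of_nonneg_right e1 hL0.le
  have q5 : c * L - 2 * (c * Real.log L) ≤ c * Real.log n := by
    have := mul_le_mul_of_nonneg_left b1 hc.le
    linarith
  have q6 : c * Real.log L ≤ ε / 4 * L := by
    have h5 : c * Real.log L ≤ c * (ε / (4 * c) * L) := mul_le_mul_of_nonneg_left g1 hc.le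
    have h6 : c * (ε / (4 * c) * L) = ε / 4 * L := by field_simp
    linarith
  have e : (o : ℝ) / L - c = (o - c * L) / L := by field_simp
  rw [e, abs_div, abs_of_pos hL0, div_le_iff₀ hL0, abs_le]
  constructor <;> linarith

theorem floor_val {Λ : ℝ} (hΛ : 0 < Λ) {ε : ℝ} (hε : 0 < ε) : ∃ N₀ : ℕ, ∀ N : ℕ, N₀ ≤ N →
    |(⌊Λ * Real.log N⌋₊ : ℝ) / Real.log N - Λ| ≤ ε := by
  obtain ⟨N₀, h⟩ := eventually_atTop.1 (log_tendsto.eventually_ge_atTop (max 1 (1 / ε)))
  refine ⟨N₀, fun N hN => ?_⟩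
  have g2 := h N hN
  have g4 : 1 ≤ Real.log N := (le_max_left _ _).trans g2
  have g5 : 1 / ε ≤ Real.log N := (le_max_right _ _).trans g2
  set L := Real.log N with hL
  have hL0 : 0 < L := by linarith
  rw [div_le_iff₀ hε] at g5
  have h1 := Nat.floor_le (show 0 ≤ Λ * L by positivity)
  have h2 := Nat.lt_floor_add_one (Λ * L)
  have e : (⌊Λ * L⌋₊ : ℝ) / L - Λ = (⌊Λ * L⌋₊ - Λ * L) / L := by field_simp
  rw [e, abs_div, abs_of_pos hL0, div_le_iff₀ hL0, abs_le]
  constructor <;> nlinarith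

/-- **The theorem.** -/
theorem result : ∃ δ : ℝ, 0 < δ ∧ δ ≤ 1 ∧ (δ = 1 ↔ ∀ m : ℕ, Odd m → height m ≠ ⊤) ∧
    -- (1) the finite heights
    FrequencyInClasses (fun m => height m ≠ ⊤) δ ∧
    -- (2) the normal law of the heights, jointly with their residue classes
    (∀ (k : ℕ) (b : ℤ) (x : ℝ), 1 ≤ k → FrequencyInClasses (Level k b x) (δ * Phi x / k)) ∧
    -- (3) the truncated averages
    (∀ Λ : ℝ, 2 / Real.log (16 / 9) < Λ →
      AverageInClasses (fun N m => (truncHeight m ⌊Λ * Real.log N⌋₊ : ℝ) / Real.log N)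
        (δ * (2 / Real.log (16 / 9)) + (1 - δ) * Λ)) ∧
    -- (4) the lower bound for the average of the heights in all residue classes to almost all moduli
    (∀ θ η ε : ℝ, 0 < θ → θ < 1 / 2 → 0 < η → 0 < ε → ∃ Q₀ : ℕ, ∀ Q : ℕ, Q₀ ≤ Q →
      ({q : ℕ | Q ≤ q ∧ q < 2 * Q ∧ ∃ a : ℤ, ¬ ENNReal.ofReal ((2 / Real.log (16 / 9) - η) *
        Real.log (length θ Q) * (Odds (length θ Q) q a).card) ≤ ∑ m ∈ Odds (length θ Q) q a, (height m : ENNReal)}.ncard : ℝ)
        ≤ ε * Q) ∧
    -- (5) a criterion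
    (∀ (θ Λ κ : ℝ) (ψ : ℕ → ℝ), 0 < θ → θ < 1 / 2 → 2 / Real.log (16 / 9) < Λ → 0 < κ → Tendsto ψ atTop (𝓝 0) →
      (∃ᶠ Q : ℕ in atTop, κ * Q ≤ ({q : ℕ | Q ≤ q ∧ q < 2 * Q ∧ ∃ a : ℤ, a % 2 = 1 ∧
        ∑ m ∈ Odds (length θ Q) q a, (truncHeight m ⌊Λ * Real.log (length θ Q)⌋₊ : ℝ) ≤
          (2 / Real.log (16 / 9) + ψ Q) * Real.log (length θ Q) * (Odds (length θ Q) q a).card}.ncard : ℝ)) →
      ∀ m : ℕ, Odd m → height m ≠ ⊤) := by
  classical
  obtain ⟨δ, h0, h1, h2, h3, h4, h5⟩ := rv_laws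
  have hfin : ∀ m : ℕ, 1 ≤ m → m % 2 = 1 → ((∃ k, Pool.Agent.H499R2.HL.H k m) ↔ height m ≠ ⊤) := fun m _ hm => by
    rw [height_lt_top_iff, ← Pool.Agent.H499R2.ND.ht_iff (Nat.odd_iff.2 hm)]
    exact (Pool.Agent.Y964.LW.hit_iff m).symm
  have hfull : δ = 1 ↔ ∀ m : ℕ, Odd m → height m ≠ ⊤ := by
    rw [h2]
    refine Iff.trans Pool.Agent.H499R2.ND.bas_all_iff ?_
    exact forall_congr' fun m => forall_congr' fun _ => height_lt_top_iff.symm
  have hnu : 0 < Real.log (4 / 3) := Real.log_pos (by norm_num)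
  have hl2 : 0 < Real.log 2 := Real.log_pos (by norm_num)
  have hrr := Pool.Agent.H499R2.HL.rr_pos
  set c : ℝ := 2 / Real.log (16 / 9) with hc
  have hc0 : 0 < c := div_pos (by norm_num) (Real.log_pos (by norm_num))
  -- the law of large numbers
  have htyp : ∀ η : ℝ, 0 < η → RV (fun n => ∃ k, Pool.Agent.H499R2.HL.H k n ∧
      |(Pool.Agent.H499R2.LT.odn k n : ℝ) - c * Real.log n| ≤ η * Real.log n) δ := by
    intro η hη
    have hcc : c = 1 / Real.log (4 / 3) := by rw [hc, two_log]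
    rw [hcc]
    exact rv_lln (f := fun k n => (Pool.Agent.H499R2.LT.odn k n : ℝ)) (α := 1 / Real.log (4 / 3))
      (σ := Real.log 2 * Pool.Agent.H499R2.HL.rr) (δ := δ) (η := η) (by positivity) h0.le h1 hη (fun x => by
        have h7 := ((h5 1 0 0 le_rfl).2.2 x).2.2
        have e : δ / ((1 : ℕ) : ℝ) * Pool.Agent.H499R2.ND.Phi x = δ * Pool.Agent.H499R2.ND.Phi x := by
          push_cast; ring
        rw [e] at h7
        refine RV_congr (fun n _ => exists_congr fun k => and_congr_right fun _ => ?_) h7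
        rw [← Pool.Agent.Y964.LW.bo_thr]
        simp [Int.modEq_one]) h4
  -- the truncated averages
  have hav : ∀ Λ : ℝ, c < Λ → RVO (fun N m => (truncHeight m ⌊Λ * Real.log N⌋₊ : ℝ) / Real.log N) (δ * c + (1 - δ) * Λ) := by
    intro Λ hΛ
    have hΛ0 : 0 < Λ := hc0.trans hΛ
    have h6 := RVF_avg (Hit := fun n => ∃ k, Pool.Agent.H499R2.HL.H k n)
      (Typ := fun η n => ∃ k, Pool.Agent.H499R2.HL.H k n ∧
        |(Pool.Agent.H499R2.LT.odn k n : ℝ) - c * Real.log n| ≤ η * Real.log n) (δ := δ) (c := c) (Λ := Λ) (B := Λ)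
      hc0.le hΛ0.le hΛ0.le h4 htyp (fun η n ⟨k, hk, _⟩ => ⟨k, hk⟩)
      (F := fun N n => ((if n % 2 = 1 then truncHeight n ⌊Λ * Real.log N⌋₊ else tr n ⌊Λ * Real.log N⌋₊ : ℕ) : ℝ) / Real.log N)
      (fun N n => by
        have hL : 0 ≤ Real.log N := Real.log_natCast_nonneg N
        refine ⟨by positivity, ?_⟩
        rcases hL.eq_or_lt with hL | hL
        · rw [← hL, div_zero]; exact hΛ0.le
        · rw [div_le_iff₀ hL]
          have h7 : ((if n % 2 = 1 then truncHeight n ⌊Λ * Real.log N⌋₊ else tr n ⌊Λ * Real.log N⌋₊ : ℕ) : ℝ) ≤ ⌊Λ * Real.log N⌋₊ := by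
            have : (if n % 2 = 1 then truncHeight n ⌊Λ * Real.log N⌋₊ else tr n ⌊Λ * Real.log N⌋₊) ≤ ⌊Λ * Real.log N⌋₊ := by
              split_ifs
              · exact trunc_le _ _
              · exact tr_le _ _
            exact_mod_cast this
          exact h7.trans (Nat.floor_le (by positivity)))
      (fun ε hε => by
        obtain ⟨η, hη, N₀, h7⟩ := typ_val hc0 hΛ hε
        obtain ⟨N₁, h8⟩ := eventually_atTop.1 (log_tendsto.eventually_ge_atTop 2)
        obtain ⟨N₂, h9⟩ := inv_log_sq (show (0 : ℝ) < 1 by norm_num)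
        -- `n ≥ 2` for large `N`
        have t3 : Tendsto (fun N : ℕ => (N : ℝ) / Real.log N ^ 2) atTop atTop := by
          have g1 : Tendsto (fun N : ℕ => Real.log N ^ 2 / (N : ℝ)) atTop (𝓝 0) := by
            have := (isLittleO_log_rpow_rpow_atTop (s := 1) 2 one_pos).tendsto_div_nhds_zero
            have := this.comp tendsto_natCast_atTop_atTop
            refine this.congr fun N => ?_
            simp
          have g2 : Tendsto (fun N : ℕ => Real.log N ^ 2 / (N : ℝ)) atTop (𝓝[>] 0) := by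
            rw [tendsto_nhdsWithin_iff]
            refine ⟨g1, ?_⟩
            filter_upwards [eventually_ge_atTop 2] with N hN
            have hN0 : (0 : ℝ) < N := by exact_mod_cast (by omega : 0 < N)
            have : 0 < Real.log N := Real.log_pos (by exact_mod_cast (by omega : 1 < N))
            show 0 < Real.log N ^ 2 / (N : ℝ)
            positivity
          refine (tendsto_inv_nhdsGT_zero.comp g2).congr fun N => ?_
          simp
        obtain ⟨N₃, h10⟩ := eventually_atTop.1 (t3.eventually_ge_atTop 1)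
        refine ⟨η, hη, max N₀ N₃, fun N hN n hn1 hn2 ht => ?_⟩
        obtain ⟨k, hk, hk2⟩ := ht
        have h11 := h7 N ((le_max_left _ _).trans hN) n hn1 hn2 _ hk2
        have h12 := h10 N ((le_max_right _ _).trans hN)
        have hn3 : 2 ≤ n := by
          have : (1 : ℝ) < n := lt_of_le_of_lt h12 hn1
          exact_mod_cast this
        have e : (if n % 2 = 1 then truncHeight n ⌊Λ * Real.log N⌋₊ else tr n ⌊Λ * Real.log N⌋₊) =
            min (Pool.Agent.H499R2.LT.odn k n) ⌊Λ * Real.log N⌋₊ := by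
          split_ifs with h
          · rw [tr_trunc hn3 h, tr_of hk]
          · rw [tr_of hk]
        simp only [e]
        exact h11)
      (fun ε hε => by
        obtain ⟨N₀, h7⟩ := floor_val hΛ0 hε
        refine ⟨max N₀ 3, fun N hN n hn1 hn2 ht => ?_⟩
        have hN3 : 3 ≤ N := (le_max_right _ _).trans hN
        have h8 := h7 N ((le_max_left _ _).trans hN)
        have hn0 : 1 ≤ n := by
          have hN0 : (0 : ℝ) < N := by exact_mod_cast (by omega : 0 < N)
          have : (0 : ℝ) < n := lt_of_le_of_lt (by positivity) hn1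
          exact_mod_cast this
        have e : (if n % 2 = 1 then truncHeight n ⌊Λ * Real.log N⌋₊ else tr n ⌊Λ * Real.log N⌋₊) = ⌊Λ * Real.log N⌋₊ := by
          split_ifs with h
          · apply trunc_top
            by_contra hne
            exact ht ((hfin n hn0 h).2 hne)
          · exact tr_top ht
        simp only [e]
        exact h8)
    refine RVO_congr (fun N m _ hm => ?_) (RVO_of h6)
    simp only [hm, if_true]
  refine ⟨δ, h0, h1, hfull, ?_, ?_, fun Λ hΛ => (average_iff _ _).2 (hav Λ hΛ), ?_, ?_⟩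
  · refine (average_iff _ _).2 (RVO_congr (fun N m hm ho => ?_) (RVO_of (RVF_of h4)))
    have h7 := hfin m hm ho
    beta_reduce
    by_cases hh : height m ≠ ⊤
    · rw [if_pos (h7.2 hh), if_pos hh]
    · rw [if_neg (fun h => hh (h7.1 h)), if_neg hh]
  · intro k b x hk
    have h6 := ((h5 k 0 b hk).2.2 x).2.2
    have e : δ / (k : ℝ) * Pool.Agent.H499R2.ND.Phi x = δ * Phi x / k := by
      unfold Phi
      rw [← Pool.Agent.H499R2.ND.phi_cdf]
      ring
    rw [e] at h6
    -- replace the event at `1`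
    have h7 : RV (fun n => (n = 1 ∧ Level k b x 1) ∨ (n ≠ 1 ∧ ∃ j, Pool.Agent.H499R2.HL.H j n ∧
        ((Pool.Agent.H499R2.LT.odn j n : ℝ) ≤ Pool.Agent.H499R2.HL.bo x (Real.log n) ∧
          (Pool.Agent.H499R2.LT.odn j n : ℤ) ≡ b [ZMOD k]))) (δ * Phi x / k) :=
      RV_congr2 (fun n hn => by
        constructor
        · exact fun h => Or.inr ⟨by omega, h⟩
        · rintro (⟨h, _⟩ | ⟨_, h⟩)
          · omega
          · exact h) h6
    refine (average_iff _ _).2 (RVO_congr (fun N m hm ho => ?_) (RVO_of (RVF_of h7)))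
    have key : ((m = 1 ∧ Level k b x 1) ∨ (m ≠ 1 ∧ ∃ j, Pool.Agent.H499R2.HL.H j m ∧
        ((Pool.Agent.H499R2.LT.odn j m : ℝ) ≤ Pool.Agent.H499R2.HL.bo x (Real.log m) ∧
          (Pool.Agent.H499R2.LT.odn j m : ℤ) ≡ b [ZMOD k]))) ↔ Level k b x m := by
      by_cases h1 : m = 1
      · subst h1; simp
      · have := ht_trans (R := fun h => (h : ℝ) ≤ bound x m ∧ (h : ℤ) ≡ b [ZMOD k]) (m := m) (by omega) ho
        rw [bound_eq] at this
        simp only [h1, false_and, false_or, ne_eq, not_false_iff, true_and]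
        rw [this]
        unfold Level
        rw [bound_eq]
    simp only [key]
  · -- the lower bound
    intro θ η ε hθ hθ2 hη hε
    have hc1 : c < c + 1 := by linarith
    have h6 := hav (c + 1) hc1
    set V : ℝ := δ * c + (1 - δ) * (c + 1) with hV
    have hVc : c ≤ V := by rw [hV]; nlinarith
    set ε' : ℝ := min ε (η / 8) with hε'
    have hε'0 : 0 < ε' := lt_min hε (by positivity)
    obtain ⟨Q₀, h7⟩ := disc_all (D := fun N q a => cfo (fun m => (truncHeight m ⌊(c + 1) * Real.log N⌋₊ : ℝ) / Real.log N) N q a -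
      V * cfo (fun _ => 1) N q a) h6.1 hθ hθ2 hε'0
    obtain ⟨Q₁, h8⟩ := eventually_atTop.1 (len_facts hθ hθ2)
    have tlen : Tendsto (fun Q : ℕ => (⌊len θ Q⌋₊ : ℝ) / Q) atTop atTop := by
      have hpow : ∀ᶠ Q : ℕ in atTop, (Q : ℝ) ^ (1 / 2 : ℝ) ≤ (⌊len θ Q⌋₊ : ℝ) / Q := by
        filter_upwards [eventually_ge_atTop 1, log_tendsto.eventually_ge_atTop (max 16 (4 * Real.log 2))] with Q hQ hx
        set x := Real.log Q with hxdef
        have hx16 : 16 ≤ x := (le_max_left _ _).trans hx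
        have hQ0 : (0 : ℝ) < Q := by exact_mod_cast hQ
        have eQ : (Q : ℝ) = Real.exp x := (Real.exp_log hQ0).symm
        have hy1 : x ^ (1 / 2 - θ) ≤ x / 4 := by
          calc x ^ (1 / 2 - θ) ≤ x ^ (1 / 2 : ℝ) := Real.rpow_le_rpow_of_exponent_le (by linarith) (by linarith)
            _ = √ x := by rw [← Real.sqrt_eq_rpow]
            _ ≤ x / 4 := by
                rw [Real.sqrt_le_left (by linarith)]
                nlinarith
        have h9 := Nat.lt_floor_add_one (len θ Q)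
        have h10 : Real.exp (7 * x / 4) ≤ len θ Q := by
          unfold len
          rw [← hxdef]
          have e1 : (Q : ℝ) ^ 2 = Real.exp (2 * x) := by rw [eQ, ← Real.exp_nat_mul]; push_cast; rfl
          rw [e1, ← Real.exp_add]
          exact Real.exp_le_exp.2 (by linarith)
        have h11 : (1 : ℝ) ≤ Real.exp (3 * x / 2) := Real.one_le_exp (by linarith)
        have h12 : (2 : ℝ) ≤ Real.exp (x / 4) := by
          rw [← Real.log_le_iff_le_exp (by norm_num)]
          have := (le_max_right _ _).trans hx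
          linarith
        have h13 : Real.exp (3 * x / 2) * Real.exp (x / 4) = Real.exp (7 * x / 4) := by
          rw [← Real.exp_add]; congr 1; ring
        rw [le_div_iff₀ hQ0]
        have e2 : (Q : ℝ) ^ (1 / 2 : ℝ) * Q = Real.exp (3 * x / 2) := by
          rw [Real.rpow_def_of_pos hQ0, ← hxdef]
          conv_lhs => rw [eQ]
          rw [← Real.exp_add]; congr 1; ring
        rw [e2]
        nlinarith
      refine tendsto_atTop_mono' _ hpow ?_
      exact (tendsto_rpow_atTop (by norm_num)).comp tendsto_natCast_atTop_atTop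
    obtain ⟨Q₂, h9⟩ := eventually_atTop.1 (tlen.eventually_ge_atTop 8)
    refine ⟨max (max Q₀ Q₁) (max Q₂ 3), fun Q hQ => ?_⟩
    have i0 : Q₀ ≤ Q := ((le_max_left _ _).trans (le_max_left _ _)).trans hQ
    have i1 : Q₁ ≤ Q := ((le_max_right _ _).trans (le_max_left _ _)).trans hQ
    have i2 : Q₂ ≤ Q := ((le_max_left _ _).trans (le_max_right _ _)).trans hQ
    have i3 : 3 ≤ Q := ((le_max_right _ _).trans (le_max_right _ _)).trans hQ
    have g7 := h7 Q i0
    obtain ⟨g8, -⟩ := h8 Q i1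
    have g9 := h9 Q i2
    set N := ⌊len θ Q⌋₊ with hN
    have hQ0 : (0 : ℝ) < Q := by exact_mod_cast (by omega : 0 < Q)
    have hN3 : 3 ≤ N := i3.trans g8
    have hN0 : (0 : ℝ) < N := by exact_mod_cast (by omega : 0 < N)
    have hL : 0 < Real.log N := Real.log_pos (by exact_mod_cast (by omega : 1 < N))
    rw [le_div_iff₀ hQ0] at g9
    have hsub : {q : ℕ | Q ≤ q ∧ q < 2 * Q ∧ ∃ a : ℤ, ¬ ENNReal.ofReal ((c - η) *
        Real.log (length θ Q) * (Odds (length θ Q) q a).card) ≤ ∑ m ∈ Odds (length θ Q) q a, (height m : ENNReal)} ⊆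
        {q : ℕ | Q ≤ q ∧ q < 2 * Q ∧ ∃ a : ℤ, ε' * (N / q) < |cfo (fun m => (truncHeight m ⌊(c + 1) * Real.log N⌋₊ : ℝ) /
          Real.log N) N q a - V * cfo (fun _ => 1) N q a|} := by
      rintro q ⟨g1, g2, a, ha⟩
      refine ⟨g1, g2, a, ?_⟩
      by_contra hcon
      apply ha
      push Not at hcon
      change ENNReal.ofReal ((c - η) * Real.log N * (Odds N q a).card) ≤ ∑ m ∈ Odds N q a, (height m : ENNReal)
      have hq0 : (0 : ℝ) < q := by exact_mod_cast (by omega : 0 < q)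
      have hq2 : (q : ℝ) ≤ 2 * Q := by exact_mod_cast g2.le
      by_cases hpar : q % 2 = 0 ∧ a % 2 = 0
      · have hz : ((Odds N q a).card : ℝ) = 0 := by rw [odds_card, cfo_zero _ _ hpar.1 hpar.2]
        rw [hz, mul_zero, ENNReal.ofReal_zero]
        exact zero_le
      · have hge := cfo_one_ge N (q := q) (a := a) (by omega) hpar
        rw [← odds_card] at hge hcon
        rw [← odds_sum] at hcon
        set M : ℝ := ((Odds N q a).card : ℝ) with hM
        have hM4 : (N : ℝ) / (4 * q) ≤ M := by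
          have e1 : (N : ℝ) / (2 * q) = N / (4 * q) + N / (4 * q) := by ring
          have e2 : 1 ≤ (N : ℝ) / (4 * q) := by
            rw [le_div_iff₀ (by positivity)]
            linarith
          linarith
        have hM5 : ε' * (N / q) ≤ η / 2 * M := by
          have e1 : (N : ℝ) / q = 4 * (N / (4 * q)) := by field_simp
          rw [e1]
          have e3 : ε' ≤ η / 8 := min_le_right _ _
          have e4 : 0 ≤ (N : ℝ) / (4 * q) := by positivity
          nlinarith
        have hlow : (c - η) * M ≤ ∑ m ∈ Odds N q a, (truncHeight m ⌊(c + 1) * Real.log N⌋₊ : ℝ) / Real.log N := by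
          have h10 := (abs_le.1 hcon).1
          have hM0 : 0 ≤ M := by positivity
          nlinarith
        have hsum : (c - η) * Real.log N * M ≤ ∑ m ∈ Odds N q a, (truncHeight m ⌊(c + 1) * Real.log N⌋₊ : ℝ) := by
          rw [← sum_div, le_div_iff₀ hL] at hlow
          linarith
        calc ENNReal.ofReal ((c - η) * Real.log N * M) ≤
              ENNReal.ofReal (∑ m ∈ Odds N q a, (truncHeight m ⌊(c + 1) * Real.log N⌋₊ : ℝ)) :=
              ENNReal.ofReal_le_ofReal hsum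
          _ = ∑ m ∈ Odds N q a, (truncHeight m ⌊(c + 1) * Real.log N⌋₊ : ENNReal) := by
              rw [ENNReal.ofReal_sum_of_nonneg (fun _ _ => Nat.cast_nonneg _)]
              exact sum_congr rfl fun m _ => ENNReal.ofReal_natCast _
          _ ≤ _ := sum_le_sum fun m _ => trunc_le_height m _
    have hfin2 : {q : ℕ | Q ≤ q ∧ q < 2 * Q ∧ ∃ a : ℤ, ε' * (N / q) < |cfo (fun m => (truncHeight m ⌊(c + 1) * Real.log N⌋₊ : ℝ) /
          Real.log N) N q a - V * cfo (fun _ => 1) N q a|}.Finite :=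
      (Set.finite_Ico Q (2 * Q)).subset (fun q hq => Set.mem_Ico.2 ⟨hq.1, hq.2.1⟩)
    have h10 : ({q : ℕ | Q ≤ q ∧ q < 2 * Q ∧ ∃ a : ℤ, ¬ ENNReal.ofReal ((c - η) *
        Real.log (length θ Q) * (Odds (length θ Q) q a).card) ≤ ∑ m ∈ Odds (length θ Q) q a, (height m : ENNReal)}.ncard : ℝ) ≤
        ({q : ℕ | Q ≤ q ∧ q < 2 * Q ∧ ∃ a : ℤ, ε' * (N / q) < |cfo (fun m => (truncHeight m ⌊(c + 1) * Real.log N⌋₊ : ℝ) /
          Real.log N) N q a - V * cfo (fun _ => 1) N q a|}.ncard : ℝ) := by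
      exact_mod_cast Set.ncard_le_ncard hsub hfin2
    have h11 : ε' * (Q : ℝ) ≤ ε * Q := mul_le_mul_of_nonneg_right (min_le_left _ _) hQ0.le
    linarith
  · -- the criterion
    intro θ Λ κ ψ hθ hθ2 hΛ hκ hψ hfr
    by_contra hcon
    have hδ1 : δ < 1 := lt_of_le_of_ne h1 (fun h => hcon (hfull.1 h))
    have h6 := hav Λ hΛ
    set V : ℝ := δ * c + (1 - δ) * Λ with hV
    have hVc : 0 < V - c := by
      have : V - c = (1 - δ) * (Λ - c) := by rw [hV]; ring
      rw [this]
      exact mul_pos (by linarith) (by linarith)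
    set ε' : ℝ := min (κ / 2) ((V - c) / 16) with hε'
    have hε'0 : 0 < ε' := lt_min (by positivity) (by positivity)
    obtain ⟨Q₀, h7⟩ := disc_all (D := fun N q a => cfo (fun m => (truncHeight m ⌊Λ * Real.log N⌋₊ : ℝ) / Real.log N) N q a -
      V * cfo (fun _ => 1) N q a) h6.1 hθ hθ2 hε'0
    obtain ⟨Q₁, h8⟩ := eventually_atTop.1 (len_facts hθ hθ2)
    have tlen : Tendsto (fun Q : ℕ => (⌊len θ Q⌋₊ : ℝ) / Q) atTop atTop := by
      have hpow : ∀ᶠ Q : ℕ in atTop, (Q : ℝ) ^ (1 / 2 : ℝ) ≤ (⌊len θ Q⌋₊ : ℝ) / Q := by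
        filter_upwards [eventually_ge_atTop 1, log_tendsto.eventually_ge_atTop (max 16 (4 * Real.log 2))] with Q hQ hx
        set x := Real.log Q with hxdef
        have hx16 : 16 ≤ x := (le_max_left _ _).trans hx
        have hQ0 : (0 : ℝ) < Q := by exact_mod_cast hQ
        have eQ : (Q : ℝ) = Real.exp x := (Real.exp_log hQ0).symm
        have hy1 : x ^ (1 / 2 - θ) ≤ x / 4 := by
          calc x ^ (1 / 2 - θ) ≤ x ^ (1 / 2 : ℝ) := Real.rpow_le_rpow_of_exponent_le (by linarith) (by linarith)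
            _ = √ x := by rw [← Real.sqrt_eq_rpow]
            _ ≤ x / 4 := by
                rw [Real.sqrt_le_left (by linarith)]
                nlinarith
        have h9 := Nat.lt_floor_add_one (len θ Q)
        have h10 : Real.exp (7 * x / 4) ≤ len θ Q := by
          unfold len
          rw [← hxdef]
          have e1 : (Q : ℝ) ^ 2 = Real.exp (2 * x) := by rw [eQ, ← Real.exp_nat_mul]; push_cast; rfl
          rw [e1, ← Real.exp_add]
          exact Real.exp_le_exp.2 (by linarith)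
        have h11 : (1 : ℝ) ≤ Real.exp (3 * x / 2) := Real.one_le_exp (by linarith)
        have h12 : (2 : ℝ) ≤ Real.exp (x / 4) := by
          rw [← Real.log_le_iff_le_exp (by norm_num)]
          have := (le_max_right _ _).trans hx
          linarith
        have h13 : Real.exp (3 * x / 2) * Real.exp (x / 4) = Real.exp (7 * x / 4) := by
          rw [← Real.exp_add]; congr 1; ring
        rw [le_div_iff₀ hQ0]
        have e2 : (Q : ℝ) ^ (1 / 2 : ℝ) * Q = Real.exp (3 * x / 2) := by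
          rw [Real.rpow_def_of_pos hQ0, ← hxdef]
          conv_lhs => rw [eQ]
          rw [← Real.exp_add]; congr 1; ring
        rw [e2]
        nlinarith
      refine tendsto_atTop_mono' _ hpow ?_
      exact (tendsto_rpow_atTop (by norm_num)).comp tendsto_natCast_atTop_atTop
    obtain ⟨Q₂, h9⟩ := eventually_atTop.1 ((tlen.eventually_ge_atTop 8).and
      (hψ.eventually_le_const (show (0 : ℝ) < (V - c) / 4 by positivity)))
    obtain ⟨Q, hQ2, hQ⟩ := (hfr.and_eventually (eventually_ge_atTop (max (max Q₀ Q₁) (max Q₂ 3)))).exists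
    have i0 : Q₀ ≤ Q := ((le_max_left _ _).trans (le_max_left _ _)).trans hQ
    have i1 : Q₁ ≤ Q := ((le_max_right _ _).trans (le_max_left _ _)).trans hQ
    have i2 : Q₂ ≤ Q := ((le_max_left _ _).trans (le_max_right _ _)).trans hQ
    have i3 : 3 ≤ Q := ((le_max_right _ _).trans (le_max_right _ _)).trans hQ
    have g7 := h7 Q i0
    obtain ⟨g8, -⟩ := h8 Q i1
    obtain ⟨g9, g10⟩ := h9 Q i2
    set N := ⌊len θ Q⌋₊ with hN
    have hQ0 : (0 : ℝ) < Q := by exact_mod_cast (by omega : 0 < Q)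
    have hN3 : 3 ≤ N := i3.trans g8
    have hN0 : (0 : ℝ) < N := by exact_mod_cast (by omega : 0 < N)
    have hL : 0 < Real.log N := Real.log_pos (by exact_mod_cast (by omega : 1 < N))
    rw [le_div_iff₀ hQ0] at g9
    have hsub : {q : ℕ | Q ≤ q ∧ q < 2 * Q ∧ ∃ a : ℤ, a % 2 = 1 ∧
        ∑ m ∈ Odds (length θ Q) q a, (truncHeight m ⌊Λ * Real.log (length θ Q)⌋₊ : ℝ) ≤
          (c + ψ Q) * Real.log (length θ Q) * (Odds (length θ Q) q a).card} ⊆
        {q : ℕ | Q ≤ q ∧ q < 2 * Q ∧ ∃ a : ℤ, ε' * (N / q) < |cfo (fun m => (truncHeight m ⌊Λ * Real.log N⌋₊ : ℝ) /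
          Real.log N) N q a - V * cfo (fun _ => 1) N q a|} := by
      rintro q ⟨g1, g2, a, ha1, ha⟩
      refine ⟨g1, g2, a, ?_⟩
      change ∑ m ∈ Odds N q a, (truncHeight m ⌊Λ * Real.log N⌋₊ : ℝ) ≤ (c + ψ Q) * Real.log N * (Odds N q a).card at ha
      have hq0 : (0 : ℝ) < q := by exact_mod_cast (by omega : 0 < q)
      have hq2 : (q : ℝ) ≤ 2 * Q := by exact_mod_cast g2.le
      have hge := cfo_one_ge N (q := q) (a := a) (by omega) (by omega)
      rw [← odds_card] at hge ⊢
      rw [← odds_sum]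
      set M : ℝ := ((Odds N q a).card : ℝ) with hM
      have hM4 : (N : ℝ) / (4 * q) ≤ M := by
        have e1 : (N : ℝ) / (2 * q) = N / (4 * q) + N / (4 * q) := by ring
        have e2 : 1 ≤ (N : ℝ) / (4 * q) := by
          rw [le_div_iff₀ (by positivity)]
          linarith
        linarith
      have hNq : 0 < (N : ℝ) / (4 * q) := by positivity
      have hM0 : 0 < M := lt_of_lt_of_le hNq hM4
      have hM5 : ε' * (N / q) ≤ (V - c) / 4 * M := by
        have e1 : (N : ℝ) / q = 4 * (N / (4 * q)) := by field_simp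
        rw [e1]
        have e3 : ε' ≤ (V - c) / 16 := min_le_right _ _
        nlinarith
      have hup : ∑ m ∈ Odds N q a, (truncHeight m ⌊Λ * Real.log N⌋₊ : ℝ) / Real.log N ≤ (c + (V - c) / 4) * M := by
        rw [← sum_div, div_le_iff₀ hL]
        refine ha.trans ?_
        have : (c + ψ Q) * Real.log N * M ≤ (c + (V - c) / 4) * Real.log N * M := by
          apply mul_le_mul_of_nonneg_right _ hM0.le
          apply mul_le_mul_of_nonneg_right _ hL.le
          linarith
        linarith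
      have hneg : V * M - ∑ m ∈ Odds N q a, (truncHeight m ⌊Λ * Real.log N⌋₊ : ℝ) / Real.log N ≤
          |∑ m ∈ Odds N q a, (truncHeight m ⌊Λ * Real.log N⌋₊ : ℝ) / Real.log N - V * M| := by
        rw [abs_sub_comm]; exact le_abs_self _
      have hp : 0 < (V - c) * M := mul_pos hVc hM0
      nlinarith
    have hfin2 : {q : ℕ | Q ≤ q ∧ q < 2 * Q ∧ ∃ a : ℤ, ε' * (N / q) < |cfo (fun m => (truncHeight m ⌊Λ * Real.log N⌋₊ : ℝ) /
          Real.log N) N q a - V * cfo (fun _ => 1) N q a|}.Finite :=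
      (Set.finite_Ico Q (2 * Q)).subset (fun q hq => Set.mem_Ico.2 ⟨hq.1, hq.2.1⟩)
    have h10 : ({q : ℕ | Q ≤ q ∧ q < 2 * Q ∧ ∃ a : ℤ, a % 2 = 1 ∧
        ∑ m ∈ Odds (length θ Q) q a, (truncHeight m ⌊Λ * Real.log (length θ Q)⌋₊ : ℝ) ≤
          (c + ψ Q) * Real.log (length θ Q) * (Odds (length θ Q) q a).card}.ncard : ℝ) ≤
        ({q : ℕ | Q ≤ q ∧ q < 2 * Q ∧ ∃ a : ℤ, ε' * (N / q) < |cfo (fun m => (truncHeight m ⌊Λ * Real.log N⌋₊ : ℝ) /
          Real.log N) N q a - V * cfo (fun _ => 1) N q a|}.ncard : ℝ) := by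
      exact_mod_cast Set.ncard_le_ncard hsub hfin2
    have h11 : ε' * (Q : ℝ) ≤ κ / 2 * Q := mul_le_mul_of_nonneg_right (min_le_left _ _) hQ0.le
    have h12 := hQ2.trans (h10.trans g7)
    nlinarith

end Pool.Agent.Results.MP_2b866c_nt.AllResidueClasses
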