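import Mathlib
import Pool.Agent.Q235.CO.HT

set_option autoImplicit false

/-!
The heights of odd integers under the `3x+1` map, and their average order, in arithmetical test sets.

A test set is given by inequalities for arbitrary real additive functions (the number of prime factors,
`log (σ(m) / m)`, ...), and an arbitrary condition on the value of an additive function with few values at the
primes (the vector of the numbers of prime factors in given arbitrary sets of primes, ...) and on the list of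
the `k` largest prime factors. No regularity is assumed, and the sets may depend on `N` in any way. The normal
law of the height `h(m)`, its residue classes, and the truncated averages are the same in all test sets, up to
`ε N`, uniformly. In particular the average of `h(m)` over the odd `m ≤ N` in test sets of positive proportion
is at least `(2 / log (16/9) - ε) log N`, the conjectured order, and the order of the truncated averages along
one sequence of test sets decides whether all heights are finite.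
-/

namespace Pool.Agent.Results.MP_2b866c_nt.HeightsArithmetic

open Filter Topology Finset

/-- `C(m) = (3m+1)/2^e(m)`, `2^e(m)` the largest power of `2` dividing `3m+1` -/
def C (m : ℕ) : ℕ := (3 * m + 1) / 2 ^ padicValNat 2 (3 * m + 1)

/-- the height `h(m)`, the least `k ≥ 1` with `C^k(m) = 1`, and `⊤ = ∞` if there is none -/
noncomputable def height (m : ℕ) : ℕ∞ := sInf {k : ℕ∞ | ∃ j : ℕ, 1 ≤ j ∧ C^[j] m = 1 ∧ k = j}

/-- `min(h(m), L)`, a natural number -/
noncomputable def truncHeight (m L : ℕ) : ℕ := (min (height m) (L : ℕ∞)).toNat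

/-- among the odd positive integers, those with the property `P` have the natural density `δ` -/
def HasOddDensity (P : ℕ → Prop) (δ : ℝ) : Prop :=
  Tendsto (fun N : ℕ => 2 / (N : ℝ) * ({m : ℕ | m ≤ N ∧ Odd m ∧ P m}.ncard : ℝ)) atTop (𝓝 δ)

/-- `2 / log (16/9) * log m + x * log 2 * √(2 log m / (log (4/3))^3)` -/
noncomputable def bound (x : ℝ) (m : ℕ) : ℝ :=
  2 / Real.log (16 / 9) * Real.log m
    + x * (Real.log 2 * Real.sqrt (2 * Real.log m / Real.log (4 / 3) ^ 3))

/-- The distribution function of the standard normal law. -/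
noncomputable def Phi (x : ℝ) : ℝ :=
  ProbabilityTheory.cdf (ProbabilityTheory.gaussianReal 0 1) x

/-- The height of `m` is finite, at most `bound x m` and congruent to `b` modulo `q`. -/
def Level (q : ℕ) (b : ℤ) (x : ℝ) (m : ℕ) : Prop :=
  ∃ h : ℕ, height m = h ∧ (h : ℝ) ≤ bound x m ∧ (h : ℤ) ≡ b [ZMOD q]

/-- A multiplicative function with values in the closed unit disc. -/
def Multiplicative (g : ℕ → ℂ) : Prop :=
  (∀ n, ‖g n‖ ≤ 1) ∧ ∀ m n : ℕ, Nat.Coprime m n → g (m * n) = g m * g n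

/-- An additive function with values in a commutative monoid. -/
def Additive {A : Type} [AddCommMonoid A] (f : ℕ → A) : Prop :=
  ∀ m n : ℕ, Nat.Coprime m n → f (m * n) = f m + f n

/-- `u` has at most `r` different values at the primes. -/
def FewValues {A : Type} (r : ℕ) (u : ℕ → A) : Prop :=
  ∃ V : Finset A, V.card ≤ r ∧ ∀ p : ℕ, p.Prime → u p ∈ V

/-- The `k` largest prime factors of `n`, with multiplicity, in decreasing order (all prime factors, if `n` has
fewer than `k`). -/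
def top (k n : ℕ) : List ℕ := n.primeFactorsList.reverse.take k

/-- The test sets: `f i n ∈ I i` for `d` real additive functions `f i` and intervals `I i`, and
`(u n, top k n) ∈ B` for an additive function `u` with at most `r` values at the primes and any set `B`. -/
def IsTest (d r k : ℕ) (E : Set ℕ) : Prop :=
  ∃ (f : Fin d → ℕ → ℝ) (I : Fin d → Set ℝ) (A : Type) (_ : AddCommMonoid A) (u : ℕ → A) (B : Set (A × List ℕ)),
    (∀ i, Additive (f i)) ∧ (∀ i, (I i).OrdConnected) ∧ Additive u ∧ FewValues r u ∧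
    E = {n : ℕ | (∀ i, f i n ∈ I i) ∧ (u n, top k n) ∈ B}

open scoped Classical in
/-- The odd positive integers `m ≤ N` in `E`. -/
noncomputable def Odds (N : ℕ) (E : Set ℕ) : Finset ℕ := (Icc 1 N).filter fun m => Odd m ∧ m ∈ E

open scoped Classical in
/-- The number of the odd positive integers `m ≤ N` in `E` with the property `P`. -/
noncomputable def Count (N : ℕ) (P : ℕ → Prop) (E : Set ℕ) : ℕ := ((Odds N E).filter P).card

open scoped Classical in
/-- Among the odd positive integers the property `P` has the frequency `l`, independently of the arithmetical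
nature: for all `d`, `r`, `k` and `ε > 0`, if `N` is large, then for every test set `E` the number of the odd
`m ≤ N` in `E` with the property `P` is `l` times the number of the odd `m ≤ N` in `E`, up to `ε N`; and the sum
of `(1_P(m) - l) g(m)` over the odd `m ≤ N` in `E` is at most `ε N` in absolute value for all multiplicative `g`
with values in the unit disc. -/
def Independent (P : ℕ → Prop) (l : ℝ) : Prop := ∀ (d r k : ℕ) (ε : ℝ), 0 < ε → ∃ N₀ : ℕ, ∀ N : ℕ, N₀ ≤ N →
  ∀ E : Set ℕ, IsTest d r k E →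
    |(Count N P E : ℝ) - l * (Odds N E).card| ≤ ε * N ∧
    ∀ g : ℕ → ℂ, Multiplicative g → ‖∑ m ∈ Odds N E, ((if P m then (1 : ℂ) else 0) - l) * g m‖ ≤ ε * N

/-- The average of `F N m` over the odd `m ≤ N` is `V`, independently of the arithmetical nature: as in
`Independent`, with `F N m` in place of `1_P(m)`, and `V` in place of `l`. -/
def IndependentAverage (F : ℕ → ℕ → ℝ) (V : ℝ) : Prop := ∀ (d r k : ℕ) (ε : ℝ), 0 < ε → ∃ N₀ : ℕ, ∀ N : ℕ, N₀ ≤ N →
  ∀ E : Set ℕ, IsTest d r k E →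
    |∑ m ∈ Odds N E, F N m - V * (Odds N E).card| ≤ ε * N ∧
    ∀ g : ℕ → ℂ, Multiplicative g → ‖∑ m ∈ Odds N E, ((F N m : ℂ) - V) * g m‖ ≤ ε * N

open Pool.Agent.H499R2.ND in
theorem height_eq {m h : ℕ} (hh : IsHt m h) : height m = h := by
  unfold height
  apply le_antisymm
  · exact sInf_le ⟨h, hh.1, hh.2.1, rfl⟩
  · refine le_sInf ?_
    rintro k ⟨j, hj, hj1, rfl⟩
    have : h ≤ j := by
      by_contra hlt
      exact hh.2.2 j hj (by omega) hj1
    exact_mod_cast this

open Pool.Agent.H499R2.ND in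
theorem exists_isHt {m j : ℕ} (hj : 1 ≤ j) (h : C^[j] m = 1) : ∃ h, IsHt m h := by
  classical
  have hex : ∃ k, 1 ≤ k ∧ C^[k] m = 1 := ⟨j, hj, h⟩
  refine ⟨Nat.find hex, (Nat.find_spec hex).1, (Nat.find_spec hex).2, fun k hk hlt hk1 => ?_⟩
  exact Nat.find_min hex hlt ⟨hk, hk1⟩

open Pool.Agent.H499R2.ND in
theorem height_top {m : ℕ} (hh : ¬ ∃ h, IsHt m h) : height m = ⊤ := by
  unfold height
  have : {k : ℕ∞ | ∃ j : ℕ, 1 ≤ j ∧ C^[j] m = 1 ∧ k = j} = ∅ := by
    rw [Set.eq_empty_iff_forall_notMem]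
    rintro k ⟨j, hj, hj1, _⟩
    exact hh (exists_isHt hj hj1)
  rw [this, sInf_empty]

open Pool.Agent.H499R2.ND in
theorem height_lt_top_iff {m : ℕ} : height m ≠ ⊤ ↔ ∃ h, IsHt m h := by
  constructor
  · intro h
    by_contra hcon
    exact h (height_top hcon)
  · rintro ⟨h, hh⟩
    rw [height_eq hh]
    exact ENat.natCast_ne_top h

open Pool.Agent.H499R2.ND in
theorem height_iff {m h : ℕ} : height m = h ↔ IsHt m h := by
  constructor
  · intro hm
    obtain ⟨h', hh'⟩ := height_lt_top_iff.1 (show height m ≠ ⊤ by rw [hm]; exact ENat.natCast_ne_top h)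
    have h1 := height_eq hh'
    rw [hm] at h1
    have h2 : h = h' := by exact_mod_cast h1
    rw [h2]; exact hh'
  · exact height_eq

open Pool.Agent.H499R2.ND in
theorem odd_density_of {P : ℕ → Prop} {δ : ℝ} (h : Dn (fun m => m % 2 = 1 ∧ P m) (δ / 2)) :
    HasOddDensity P δ := by
  unfold HasOddDensity
  have h1 := h.const_mul 2
  rw [mul_div_cancel₀ δ (by norm_num : (2 : ℝ) ≠ 0)] at h1
  refine h1.congr fun N => ?_
  have e : {m : ℕ | 1 ≤ m ∧ m ≤ N ∧ m % 2 = 1 ∧ P m} = {m : ℕ | m ≤ N ∧ Odd m ∧ P m} := by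
    ext m
    constructor
    · rintro ⟨g1, g2, g3, g4⟩
      exact ⟨g2, Nat.odd_iff.2 g3, g4⟩
    · rintro ⟨g2, g3, g4⟩
      exact ⟨g3.pos, g2, Nat.odd_iff.1 g3, g4⟩
  unfold cnt
  rw [e]
  ring

theorem two_log : 2 / Real.log (16 / 9) = 1 / Real.log (4 / 3) := by
  have : Real.log (16 / 9) = 2 * Real.log (4 / 3) := by
    rw [show (16 : ℝ) / 9 = (4 / 3) ^ 2 by norm_num, Real.log_pow]; push_cast; ring
  rw [this]
  have : Real.log (4 / 3) ≠ 0 := (Real.log_pos (by norm_num)).ne'
  field_simp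

theorem bound_eq (x : ℝ) (m : ℕ) : bound x m = Pool.Agent.H499R2.HL.bo x (Real.log m) := by
  unfold bound Pool.Agent.H499R2.HL.bo
  rw [two_log]

/-- finite heights with a property -/
theorem ht_trans {R : ℕ → Prop} {m : ℕ} (hm : 2 ≤ m) (ho : m % 2 = 1) :
    (∃ k, Pool.Agent.H499R2.HL.H k m ∧ R (Pool.Agent.H499R2.LT.odn k m)) ↔ ∃ h : ℕ, height m = h ∧ R h := by
  have h1 := fun h : ℕ => Pool.Agent.H499R2.HL.ht_H (x := m) ho (by omega) h
  constructor
  · rintro ⟨k, hk, hR⟩
    exact ⟨_, height_iff.2 ((h1 _).2 ⟨k, hk, rfl⟩), hR⟩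
  · rintro ⟨h, hh, hR⟩
    obtain ⟨k, hk, rfl⟩ := (h1 h).1 (height_iff.1 hh)
    exact ⟨k, hk, hR⟩

theorem trunc_of {m h L : ℕ} (hh : height m = h) : truncHeight m L = min h L := by
  unfold truncHeight
  rw [hh]
  rcases le_total h L with hl | hl
  · rw [min_eq_left hl, min_eq_left (by exact_mod_cast hl)]
    exact ENat.toNat_natCast _
  · rw [min_eq_right hl, min_eq_right (by exact_mod_cast hl)]
    exact ENat.toNat_natCast _

theorem trunc_top {m L : ℕ} (hh : height m = ⊤) : truncHeight m L = L := by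
  unfold truncHeight
  rw [hh, min_eq_right le_top]
  exact ENat.toNat_natCast _

theorem trunc_le (m L : ℕ) : truncHeight m L ≤ L := by
  by_cases h : height m = ⊤
  · rw [trunc_top h]
  · obtain ⟨k, hk⟩ := ENat.ne_top_iff_exists.1 h
    rw [trunc_of hk.symm]
    exact min_le_right _ _

theorem trunc_le_height (m L : ℕ) : (truncHeight m L : ENNReal) ≤ (height m : ENNReal) := by
  by_cases h : height m = ⊤
  · rw [h]; simp
  · obtain ⟨k, hk⟩ := ENat.ne_top_iff_exists.1 h
    rw [trunc_of hk.symm, ← hk]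
    have : min k L ≤ k := min_le_left _ _
    simp only [ENat.toENNReal_coe]
    exact_mod_cast this

theorem test_of {d r k : ℕ} {E : Set ℕ} (h : IsTest d r k E) : Pool.Agent.Q235.CO.Tst d r k E := by
  obtain ⟨f, I, A, inst, u, B, h1, h2, h3, h4, h5⟩ := h
  exact ⟨f, I, A, inst, u, B, h1, h2, h3, h4, h5⟩

open scoped Classical in
theorem sum_odds {c : ℕ → ℂ} (g : ℕ → ℂ) (N : ℕ) (E : Set ℕ) :
    ∑ m ∈ Odds N E, c m * g m = ∑ n ∈ Icc 1 N, if n ∈ E then (if n % 2 = 1 then c n else 0) * g n else 0 := by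
  unfold Odds
  rw [sum_filter]
  apply sum_congr rfl
  intro n _
  by_cases h1 : n ∈ E <;> by_cases h2 : n % 2 = 1
  · rw [if_pos ⟨Nat.odd_iff.2 h2, h1⟩, if_pos h1, if_pos h2]
  · rw [if_neg (fun h => h2 (Nat.odd_iff.1 h.1)), if_pos h1, if_neg h2, zero_mul]
  · rw [if_neg (fun h => h1 h.2), if_neg h1]
  · rw [if_neg (fun h => h1 h.2), if_neg h1]

open scoped Classical in
theorem average_of {F : ℕ → ℕ → ℝ} {V : ℝ}
    (h : Pool.Agent.Q235.CO.Bd (fun N n => if n % 2 = 1 then (F N n : ℂ) - V else 0)) : IndependentAverage F V := by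
  intro d r k ε hε
  obtain ⟨N0, H⟩ := Pool.Agent.Q235.CO.Bd_test h d r k hε
  refine ⟨N0, fun N hN E hE => ?_⟩
  have key : ∀ g : ℕ → ℂ, Multiplicative g → ‖∑ m ∈ Odds N E, ((F N m : ℂ) - V) * g m‖ ≤ ε * N := by
    intro g hg
    rw [sum_odds]
    exact H N hN E (test_of hE) g hg
  refine ⟨?_, key⟩
  have h1 := key (fun _ => 1) ⟨fun _ => by simp, fun _ _ _ => by simp⟩
  refine le_trans (le_of_eq ?_) h1
  rw [← Real.norm_eq_abs, ← Complex.norm_real]
  congr 1
  simp only [mul_one]
  rw [sum_sub_distrib, sum_const, nsmul_eq_mul]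
  push_cast
  ring

open scoped Classical in
theorem independent_of {P : ℕ → Prop} {l : ℝ}
    (h : Pool.Agent.Q235.CO.Bd (fun _ n => if n % 2 = 1 then (if P n then (1 : ℂ) else 0) - l else 0)) :
    Independent P l := by
  intro d r k ε hε
  obtain ⟨N0, H⟩ := Pool.Agent.Q235.CO.Bd_test h d r k hε
  refine ⟨N0, fun N hN E hE => ?_⟩
  have key : ∀ g : ℕ → ℂ, Multiplicative g →
      ‖∑ m ∈ Odds N E, ((if P m then (1 : ℂ) else 0) - l) * g m‖ ≤ ε * N := by
    intro g hg
    rw [sum_odds (c := fun m => (if P m then (1 : ℂ) else 0) - l)]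
    exact H N hN E (test_of hE) g hg
  refine ⟨?_, key⟩
  have h1 := key (fun _ => 1) ⟨fun _ => by simp, fun _ _ _ => by simp⟩
  refine le_trans (le_of_eq ?_) h1
  rw [← Real.norm_eq_abs, ← Complex.norm_real]
  congr 1
  simp only [mul_one]
  unfold Count
  rw [sum_sub_distrib, sum_const, nsmul_eq_mul, card_filter]
  have e2 : ((((∑ m ∈ Odds N E, if P m then 1 else 0 : ℕ) : ℝ)) : ℂ) = ∑ m ∈ Odds N E, if P m then (1 : ℂ) else 0 := by
    rw [Complex.ofReal_natCast, Nat.cast_sum]
    exact sum_congr rfl fun m _ => by split_ifs <;> simp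
  rw [Complex.ofReal_sub, e2]
  push_cast
  ring

/-- limit laws -/
theorem Independent.lim {P : ℕ → Prop} {l : ℝ} (hP : Independent P l) {d r k : ℕ}
    {E : ℕ → Set ℕ} (hE : ∀ N, IsTest d r k (E N)) {p : ℝ}
    (h : Tendsto (fun N : ℕ => ((Odds N (E N)).card : ℝ) / N) atTop (𝓝 p)) :
    Tendsto (fun N : ℕ => (Count N P (E N) : ℝ) / N) atTop (𝓝 (l * p)) := by
  have h0 : Tendsto (fun N : ℕ => (Count N P (E N) : ℝ) / N
      - l * (((Odds N (E N)).card : ℝ) / N)) atTop (𝓝 0) := by
    rw [Metric.tendsto_atTop]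
    intro ε hε
    obtain ⟨N0, H⟩ := hP d r k (ε / 2) (by positivity)
    refine ⟨N0 + 1, fun N hN => ?_⟩
    have hN0 : (0 : ℝ) < N := by exact_mod_cast (by omega : 0 < N)
    have h1 := (H N (by omega) (E N) (hE N)).1
    rw [Real.dist_eq, sub_zero]
    have e1 : (Count N P (E N) : ℝ) / N - l * (((Odds N (E N)).card : ℝ) / N)
        = ((Count N P (E N) : ℝ) - l * (Odds N (E N)).card) / N := by ring
    rw [e1, abs_div, abs_of_pos hN0, div_lt_iff₀ hN0]
    nlinarith
  have h1 := h0.add (h.const_mul l)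
  rw [zero_add] at h1
  refine h1.congr fun N => ?_
  ring

theorem IndependentAverage.lim {F : ℕ → ℕ → ℝ} {V : ℝ} (hF : IndependentAverage F V) {d r k : ℕ}
    {E : ℕ → Set ℕ} (hE : ∀ N, IsTest d r k (E N)) {κ : ℝ} (hκ : 0 < κ)
    (h : ∀ᶠ N : ℕ in atTop, κ * N ≤ (Odds N (E N)).card) :
    Tendsto (fun N : ℕ => (∑ m ∈ Odds N (E N), F N m) / (Odds N (E N)).card) atTop (𝓝 V) := by
  rw [Metric.tendsto_atTop]
  intro ε hε
  obtain ⟨N0, H⟩ := hF d r k (ε * κ / 2) (by positivity)
  obtain ⟨N1, H1⟩ := eventually_atTop.1 h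
  refine ⟨N0 + N1 + 1, fun N hN => ?_⟩
  have hN0 : (0 : ℝ) < N := by exact_mod_cast (by omega : 0 < N)
  have h1 := (H N (by omega) (E N) (hE N)).1
  have h2 := H1 N (by omega)
  have h3 : (0 : ℝ) < (Odds N (E N)).card := lt_of_lt_of_le (by positivity) h2
  rw [Real.dist_eq]
  have e1 : (∑ m ∈ Odds N (E N), F N m) / (Odds N (E N)).card - V
      = (∑ m ∈ Odds N (E N), F N m - V * (Odds N (E N)).card) / (Odds N (E N)).card := by
    field_simp
  rw [e1, abs_div, abs_of_pos h3, div_lt_iff₀ h3]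
  have h4 : ε * (κ * N) ≤ ε * (Odds N (E N)).card := mul_le_mul_of_nonneg_left h2 hε.le
  have h5 : 0 < ε * (κ * N) := by positivity
  linarith

open scoped Classical in
/-- THE HEIGHTS AND THEIR AVERAGE ORDER IN ARITHMETICAL TEST SETS. Let `δ > 0` be the natural density of the
finite heights among the odd positive integers; `δ = 1` if and only if all heights are finite. In the sense of
`Independent` and `IndependentAverage` (uniformly in all test sets):
(1) the `m` of finite height have frequency `δ`, and those with moreover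
`h(m) ≤ 2 / log (16/9) log m + x log 2 √(2 log m / (log (4/3))^3)` and `h(m) ≡ b` modulo `q` have frequency
`δ Φ(x) / q`, `Φ` the standard normal distribution function;
(2) for every `Λ > 2 / log (16/9)` the average of `min(h(m), ⌊Λ log N⌋) / log N` is
`δ 2 / log (16/9) + (1 - δ) Λ`.
Let the test sets `E N` depend on `N` in any way. (3) JOINT LAWS: if the number of the odd `m ≤ N` in `E N` is
`(p + o(1)) N`, then the number of those in the class of (1) is `(δ Φ(x) / q p + o(1)) N`; if it is at least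
`κ N` for large `N`, `κ > 0`, then the average of `min(h(m), ⌊Λ log N⌋) / log N` over the odd `m ≤ N` in `E N`
tends to `δ 2 / log (16/9) + (1 - δ) Λ`.
(4) THE LOWER BOUND. For all `d`, `r`, `k`, `κ > 0`, `η > 0` and large `N`, for all test sets `E` with at least
`κ N` odd elements `m ≤ N` the average of `h(m)` over these is at least `(2 / log (16/9) - η) log N`.
(5) SUFFICIENT SETS. If for infinitely many `N` at least `κ N` of the odd `m ≤ N` are in `E N`, and either at
most `ψ N * N` of these have infinite height, or for some `Λ > 2 / log (16/9)` the average of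
`min(h(m), ⌊Λ log N⌋)` over these is at most `(2 / log (16/9) + ψ N) log N`, where `ψ` tends to `0`, then all
odd positive integers have finite height. -/
theorem result : ∃ δ : ℝ, 0 < δ ∧ δ ≤ 1 ∧ (δ = 1 ↔ ∀ m : ℕ, Odd m → height m ≠ ⊤) ∧
    HasOddDensity (fun m => height m ≠ ⊤) δ ∧
    Independent (fun m => height m ≠ ⊤) δ ∧
    (∀ (q : ℕ) (b : ℤ) (x : ℝ), 1 ≤ q → Independent (Level q b x) (δ * Phi x / q)) ∧
    (∀ Λ : ℝ, 2 / Real.log (16 / 9) < Λ →
      IndependentAverage (fun N m => (truncHeight m ⌊Λ * Real.log N⌋₊ : ℝ) / Real.log N)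
        (δ * (2 / Real.log (16 / 9)) + (1 - δ) * Λ)) ∧
    (∀ (d r k : ℕ) (E : ℕ → Set ℕ), (∀ N, IsTest d r k (E N)) →
      (∀ (q : ℕ) (b : ℤ) (x p : ℝ), 1 ≤ q →
        Tendsto (fun N : ℕ => ((Odds N (E N)).card : ℝ) / N) atTop (𝓝 p) →
        Tendsto (fun N : ℕ => (Count N (Level q b x) (E N) : ℝ) / N) atTop (𝓝 (δ * Phi x / q * p))) ∧
      (∀ Λ κ : ℝ, 2 / Real.log (16 / 9) < Λ → 0 < κ → (∀ᶠ N : ℕ in atTop, κ * N ≤ (Odds N (E N)).card) →
        Tendsto (fun N : ℕ => (∑ m ∈ Odds N (E N), (truncHeight m ⌊Λ * Real.log N⌋₊ : ℝ) / Real.log N) /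
          (Odds N (E N)).card) atTop (𝓝 (δ * (2 / Real.log (16 / 9)) + (1 - δ) * Λ))) ∧
      (∀ (κ : ℝ) (ψ : ℕ → ℝ), 0 < κ → Tendsto ψ atTop (𝓝 0) →
        (∃ᶠ N : ℕ in atTop, κ * N ≤ (Odds N (E N)).card ∧
          (Count N (fun m => height m = ⊤) (E N) : ℝ) ≤ ψ N * N) →
        ∀ m : ℕ, Odd m → height m ≠ ⊤) ∧
      (∀ (Λ κ : ℝ) (ψ : ℕ → ℝ), 2 / Real.log (16 / 9) < Λ → 0 < κ → Tendsto ψ atTop (𝓝 0) →
        (∃ᶠ N : ℕ in atTop, κ * N ≤ (Odds N (E N)).card ∧
          ∑ m ∈ Odds N (E N), (truncHeight m ⌊Λ * Real.log N⌋₊ : ℝ) ≤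
            (2 / Real.log (16 / 9) + ψ N) * Real.log N * (Odds N (E N)).card) →
        ∀ m : ℕ, Odd m → height m ≠ ⊤)) ∧
    (∀ (d r k : ℕ) (κ η : ℝ), 0 < κ → 0 < η → ∃ N₀ : ℕ, ∀ N : ℕ, N₀ ≤ N → ∀ E : Set ℕ, IsTest d r k E →
      κ * N ≤ (Odds N E).card →
      ENNReal.ofReal ((2 / Real.log (16 / 9) - η) * Real.log N * (Odds N E).card) ≤
        ∑ m ∈ Odds N E, (height m : ENNReal)) := by
  obtain ⟨δ, h0, h1, h2, h3, h4, h5⟩ := Pool.Agent.Q235.CO.ht_rx
  have hBas : ∀ m : ℕ, Odd m → (Pool.Agent.H499R2.ND.Bas m ↔ height m ≠ ⊤) := fun m hm => by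
    rw [height_lt_top_iff]
    exact Pool.Agent.H499R2.ND.ht_iff hm
  have hfin : ∀ m : ℕ, Odd m → ((∃ k, Pool.Agent.H499R2.HL.H k m) ↔ height m ≠ ⊤) := fun m hm => by
    rw [← hBas m hm]
    exact (Pool.Agent.Y964.LW.hit_iff m).symm
  have hfull : δ = 1 ↔ ∀ m : ℕ, Odd m → height m ≠ ⊤ := by
    rw [h2]
    refine Iff.trans Pool.Agent.H499R2.ND.bas_all_iff ?_
    exact forall_congr' fun m => forall_congr' fun _ => height_lt_top_iff.symm
  have hA : Independent (fun m => height m ≠ ⊤) δ :=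
    independent_of (Pool.Agent.Q235.CO.Bd_odd h4 0 (fun n _ ho => hfin n (Nat.odd_iff.2 ho)))
  have hL : ∀ (q : ℕ) (b : ℤ) (x : ℝ), 1 ≤ q → Independent (Level q b x) (δ * Phi x / q) := by
    intro q b x hq
    have h6 := h5 q b hq x
    have e : δ / (q : ℝ) * Pool.Agent.H499R2.ND.Phi x = δ * Phi x / q := by
      unfold Phi
      rw [← Pool.Agent.H499R2.ND.phi_cdf]
      ring
    rw [e] at h6
    refine independent_of (Pool.Agent.Q235.CO.Bd_odd h6 1 (fun n hn ho => ?_))
    rw [← bound_eq]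
    exact ht_trans (R := fun h => (h : ℝ) ≤ bound x n ∧ (h : ℤ) ≡ b [ZMOD q]) (by omega) ho
  have hc0 : 0 < 2 / Real.log (16 / 9) := div_pos (by norm_num) (Real.log_pos (by norm_num))
  have hav : ∀ Λ : ℝ, 2 / Real.log (16 / 9) < Λ →
      IndependentAverage (fun N m => (truncHeight m ⌊Λ * Real.log N⌋₊ : ℝ) / Real.log N)
        (δ * (2 / Real.log (16 / 9)) + (1 - δ) * Λ) := by
    intro Λ hΛ
    apply average_of
    have hl1 := Pool.Agent.Q235.CO.trunc_l1 (c := 2 / Real.log (16 / 9)) (Λ := Λ) hc0 hΛ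
      (B := Pool.Agent.H499R2.ND.Bas) (H := Pool.Agent.H499R2.ND.IsHt) (f := truncHeight)
      (fun ε hε => by rw [two_log]; exact Pool.Agent.H499R2.ND.ht_zd h3 hε)
      (fun m h L _ hh => trunc_of (height_eq hh))
      (fun m L ho hb => trunc_top (by
        by_contra hcon
        exact hb ((hBas m (Nat.odd_iff.2 ho)).2 hcon)))
      trunc_le
    have hb := Pool.Agent.Q235.CO.Bd_smul ((2 / Real.log (16 / 9) : ℝ) - (Λ : ℝ) : ℂ)
      (Pool.Agent.Q235.CO.Bd_odd (P := Pool.Agent.H499R2.ND.Bas) h4 0 (fun n _ _ => (Pool.Agent.Y964.LW.hit_iff n).symm))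
    refine Pool.Agent.Q235.CO.Bd_close hb fun ε hε => ?_
    obtain ⟨N0, hN0⟩ := hl1 ε hε
    refine ⟨N0, fun N hN => le_trans (le_of_eq ?_) (hN0 N hN)⟩
    rw [sum_filter]
    apply sum_congr rfl
    intro n _
    by_cases ho : n % 2 = 1
    · rw [if_pos ho, if_pos ho, if_pos ho, ← Real.norm_eq_abs, ← Complex.norm_real]
      congr 1
      by_cases hb : Pool.Agent.H499R2.ND.Bas n
      · rw [if_pos hb, if_pos hb]; push_cast; ring
      · rw [if_neg hb, if_neg hb]; push_cast; ring
    · rw [if_neg ho, if_neg ho, if_neg ho]; simp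
  refine ⟨δ, h0, h1, hfull, ?_, hA, hL, hav, fun d r k E hE => ⟨?_, ?_, ?_, ?_⟩, ?_⟩
  · apply odd_density_of
    have h6 : Pool.Agent.H499R2.ND.Dn (fun m => m % 2 = 1 ∧ Pool.Agent.H499R2.ND.Bas m) (δ / 2) := by
      have := Pool.Agent.H499R2.ND.inv_prog Pool.Agent.H499R2.ND.Bas_inv h3 (q := 2) (by norm_num) 1
      exact_mod_cast this
    exact Pool.Agent.H499R2.LT.Dn_iff (fun n _ => and_congr_right fun h => hBas n (Nat.odd_iff.2 h)) h6
  · intro q b x p hq hp
    exact (hL q b x hq).lim hE hp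
  · intro Λ κ hΛ hκ h
    exact (hav Λ hΛ).lim hE hκ h
  · intro κ ψ hκ hψ h
    refine hfull.1 ?_
    by_contra hcon
    have hδ1 : 0 < 1 - δ := by
      rcases h1.lt_or_eq with h6 | h6
      · linarith
      · exact absurd h6 hcon
    obtain ⟨N0, H⟩ := hA d r k ((1 - δ) * κ / 2) (by positivity)
    have h6 : ∀ᶠ N : ℕ in atTop, ψ N < (1 - δ) * κ / 2 := (tendsto_order.1 hψ).2 _ (by positivity)
    obtain ⟨N, ⟨h7, h8⟩, h9, h10⟩ := (h.and_eventually (h6.and (eventually_ge_atTop (N0 + 1)))).exists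
    have hNp : (0 : ℝ) < N := by exact_mod_cast (by omega : 0 < N)
    have h11 := (abs_le.1 (H N (by omega) (E N) (hE N)).1).2
    have h12 : ((Odds N (E N)).card : ℝ)
        = Count N (fun m => height m ≠ ⊤) (E N) + Count N (fun m => height m = ⊤) (E N) := by
      unfold Count
      have h13 := Finset.card_filter_add_card_filter_not (s := Odds N (E N)) (fun m => height m = ⊤)
      rw [← h13]
      push_cast
      rw [add_comm]
      congr!
    have h15 : ψ N * N < (1 - δ) * κ / 2 * N := mul_lt_mul_of_pos_right h9 hNp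
    have h16 : (1 - δ) * (κ * N) ≤ (1 - δ) * (Odds N (E N)).card :=
      mul_le_mul_of_nonneg_left h7 hδ1.le
    linarith
  · intro Λ κ ψ hΛ hκ hψ h
    refine hfull.1 ?_
    by_contra hcon
    have hδ1 : 0 < 1 - δ := by
      rcases h1.lt_or_eq with h6 | h6
      · linarith
      · exact absurd h6 hcon
    set c0 : ℝ := 2 / Real.log (16 / 9) with hcd
    set τ : ℝ := (1 - δ) * (Λ - c0) with hτ
    have hτ0 : 0 < τ := mul_pos hδ1 (by linarith)
    obtain ⟨N0, H⟩ := hav Λ hΛ d r k (τ * κ / 4) (by positivity)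
    have h6 : ∀ᶠ N : ℕ in atTop, ψ N < τ / 2 := (tendsto_order.1 hψ).2 _ (by positivity)
    obtain ⟨N, ⟨h7, h8⟩, h9, h10⟩ := (h.and_eventually (h6.and (eventually_ge_atTop (N0 + 3)))).exists
    have hNp : (0 : ℝ) < N := by exact_mod_cast (by omega : 0 < N)
    have hlog : 0 < Real.log N := Real.log_pos (by exact_mod_cast (by omega : 1 < N))
    have hcp : (0 : ℝ) < (Odds N (E N)).card := lt_of_lt_of_le (by positivity) h7
    have h11 := (abs_le.1 (H N (by omega) (E N) (hE N)).1).1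
    have h12 : ∑ m ∈ Odds N (E N), (truncHeight m ⌊Λ * Real.log N⌋₊ : ℝ) / Real.log N
        ≤ (c0 + ψ N) * (Odds N (E N)).card := by
      rw [← sum_div, div_le_iff₀ hlog]
      refine h8.trans (le_of_eq ?_)
      ring
    have h13 : (c0 + ψ N) * (Odds N (E N)).card ≤ (c0 + τ / 2) * (Odds N (E N)).card :=
      mul_le_mul_of_nonneg_right (by linarith) hcp.le
    have h14 : δ * c0 + (1 - δ) * Λ = c0 + τ := by rw [hτ]; ring
    rw [h14] at h11
    have h15 : τ * (κ * N) ≤ τ * (Odds N (E N)).card := mul_le_mul_of_nonneg_left h7 hτ0.le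
    have h16 : 0 < τ * (κ * N) := by positivity
    have h17 : (c0 + τ) * (Odds N (E N)).card - (c0 + τ / 2) * (Odds N (E N)).card
        = τ / 2 * (Odds N (E N)).card := by ring
    nlinarith
  · intro d r k κ η hκ hη
    set c0 : ℝ := 2 / Real.log (16 / 9) with hcd
    obtain ⟨N0, H⟩ := hav (c0 + 1) (by linarith) d r k (η * κ) (by positivity)
    refine ⟨N0 + 3, fun N hN E hE hc => ?_⟩
    have hNp : (0 : ℝ) < N := by exact_mod_cast (by omega : 0 < N)
    have hlog : 0 < Real.log N := Real.log_pos (by exact_mod_cast (by omega : 1 < N))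
    have h11 := (abs_le.1 (H N (by omega) E hE).1).1
    have hcp : (0 : ℝ) < (Odds N E).card := lt_of_lt_of_le (by positivity) hc
    have h12 : (c0 - η) * (Odds N E).card ≤
        ∑ m ∈ Odds N E, (truncHeight m ⌊(c0 + 1) * Real.log N⌋₊ : ℝ) / Real.log N := by
      have h13 : η * (κ * N) ≤ η * (Odds N E).card := mul_le_mul_of_nonneg_left hc hη.le
      have h14 : 0 ≤ (1 - δ) * (Odds N E).card := mul_nonneg (by linarith) hcp.le
      have h15 : (δ * c0 + (1 - δ) * (c0 + 1)) * ((Odds N E).card : ℝ)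
          = c0 * (Odds N E).card + (1 - δ) * (Odds N E).card := by ring
      rw [h15] at h11
      linarith
    have h16 : (c0 - η) * Real.log N * (Odds N E).card ≤
        ∑ m ∈ Odds N E, (truncHeight m ⌊(c0 + 1) * Real.log N⌋₊ : ℝ) := by
      rw [← sum_div, le_div_iff₀ hlog] at h12
      refine le_trans (le_of_eq ?_) h12
      ring
    calc ENNReal.ofReal ((c0 - η) * Real.log N * (Odds N E).card)
        ≤ ENNReal.ofReal (∑ m ∈ Odds N E, (truncHeight m ⌊(c0 + 1) * Real.log N⌋₊ : ℝ)) :=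
          ENNReal.ofReal_le_ofReal h16
      _ = ∑ m ∈ Odds N E, (truncHeight m ⌊(c0 + 1) * Real.log N⌋₊ : ENNReal) := by
          rw [ENNReal.ofReal_sum_of_nonneg (fun m _ => Nat.cast_nonneg _)]
          exact sum_congr rfl fun m _ => ENNReal.ofReal_natCast _
      _ ≤ _ := sum_le_sum fun m _ => trunc_le_height m _

end Pool.Agent.Results.MP_2b866c_nt.HeightsArithmetic
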