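import Pool.Agent.Q250.CL.MulW
import Pool.Agent.H499R2.NDHt

set_option autoImplicit false

/-!
# The average height at the odd return times of a dynamical system

Let `T 1, ..., T k` be commuting invertible measure preserving transformations of a probability space. In the multiple
ergodic averages over the ODD integers the heights may be replaced by their predicted average order: the averages
of `h(n) / log n`, with `h` truncated at `Λ log N`, times `f 1 (T 1 ^ n x) ⋯ f k (T k ^ n x)` have the same limit in `L²` as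
those without the heights, multiplied by `δ 2 / log (16/9) + (1 - δ) Λ`, where `δ > 0` is the density of the odd integers of
finite height; the error is small uniformly in the space, the transformations and the functions. The odd integers of
finite height with `|h(n) - 2 / log (16/9) log n| ≤ η log n` contribute exactly the proportion `δ`. Hence the predicted
average order over the odd (multiple) return times implies that all heights are finite; also it is sufficient that
almost all odd integers `1 +` (a return time of one set of positive measure) have finite heights.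

Method: small Gowers norms of the set of the integers which reach `1` and a generalised von Neumann theorem for
commuting transformations (`Pool/Agent/Q49/ME`), applied also to the squares of the transformations, and the law of large
numbers for the heights.
-/

namespace Pool.Agent.Results.MP_2b866c_nt.HeightsInErgodicAverages

open Filter Topology MeasureTheory

/-- `C(m) = (3m+1)/2^e(m)`, `2^e(m)` the largest power of `2` dividing `3m+1` -/
def C (m : ℕ) : ℕ := (3 * m + 1) / 2 ^ padicValNat 2 (3 * m + 1)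

/-- the height `h(m)`, the least `k ≥ 1` with `C^k(m) = 1`, and `⊤ = ∞` if there is none -/
noncomputable def height (m : ℕ) : ℕ∞ := sInf {k : ℕ∞ | ∃ j : ℕ, 1 ≤ j ∧ C^[j] m = 1 ∧ k = j}

/-- the height truncated at `T`, that is `min (h(m), T)` -/
noncomputable def truncated (T : ℝ) (m : ℕ) : ℝ := if height m = ⊤ then T else min ((height m).toNat : ℝ) T

/-- the height is finite and differs from `2 / log (16/9) * log m` by at most `η log m` -/
def Typical (η : ℝ) (m : ℕ) : Prop :=
  height m ≠ ⊤ ∧ |((height m).toNat : ℝ) - 2 / Real.log (16 / 9) * Real.log m| ≤ η * Real.log m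

/-- among the odd positive integers, those with the property `P` have the natural density `δ` -/
def HasOddDensity (P : ℕ → Prop) (δ : ℝ) : Prop :=
  Tendsto (fun N : ℕ => 2 / (N : ℝ) * ({m : ℕ | m ≤ N ∧ Odd m ∧ P m}.ncard : ℝ)) atTop (𝓝 δ)

/-- `k` commuting invertible measure preserving transformations of a probability space `X` -/
structure System (k : ℕ) (X : Type) [MeasurableSpace X] where
  μ : Measure X
  prob : IsProbabilityMeasure μ
  T : Fin k → X ≃ᵐ X
  mp : ∀ i, MeasurePreserving (T i) μ μ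
  comm : ∀ i j x, T i (T j x) = T j (T i x)

/-- measurable functions with values in the unit disc -/
def Bounded {k : ℕ} {X : Type} [MeasurableSpace X] (f : Fin k → X → ℂ) : Prop :=
  ∀ i, Measurable (f i) ∧ ∀ x, ‖f i x‖ ≤ 1

/-- the weighted multiple ergodic average `1/N` times the sum over the odd `n ≤ N` of
`w(n) f 1 (T 1 ^ n x) ⋯ f k (T k ^ n x)` -/
noncomputable def System.avg {k : ℕ} {X : Type} [MeasurableSpace X] (Y : System k X) (f : Fin k → X → ℂ) (w : ℕ → ℝ)
    (N : ℕ) (x : X) : ℂ :=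
  (∑ n ∈ (Finset.Icc 1 N).filter (fun n => Odd n), ((w n : ℝ) : ℂ) * ∏ i, f i ((Y.T i)^[n] x)) / N

/-- the measure of `A₀ ∩ T 1 ^ (-n) A 1 ∩ ... ∩ T k ^ (-n) A k` -/
noncomputable def System.ret {k : ℕ} {X : Type} [MeasurableSpace X] (Y : System k X) (A₀ : Set X) (A : Fin k → Set X)
    (n : ℕ) : ℝ := Y.μ.real (A₀ ∩ {x | ∀ i, (Y.T i)^[n] x ∈ A i})

/-- the sum over the odd `n ≤ N` of `w(n)` times the measure of `A₀ ∩ T 1 ^ (-n) A 1 ∩ ... ∩ T k ^ (-n) A k` -/
noncomputable def System.retSum {k : ℕ} {X : Type} [MeasurableSpace X] (Y : System k X) (A₀ : Set X)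
    (A : Fin k → Set X) (w : ℕ → ℝ) (N : ℕ) : ℝ :=
  ∑ n ∈ (Finset.Icc 1 N).filter (fun n => Odd n), w n * Y.ret A₀ A n

/-- The weights `w N n` have the mean value `c` in multiple ergodic averages over the odd integers. (1) For all `k`
and `ε > 0`, if `N` is large, then for every system of `k` commuting invertible measure preserving transformations and
all measurable `f 1, ..., f k` with values in the unit disc, the average with the weights `w N n - c` has a norm at
most `ε` in `L²`; and the sum of `w N n - c` times the measures of `A₀ ∩ T 1 ^ (-n) A 1 ∩ ... ∩ T k ^ (-n) A k` is at most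
`ε N` in absolute value. (2) If the averages with the weights `1` converge in `L²` (they do by a theorem of Tao, applied to
the `T i` and their squares) to `L`, then those with the weights `w N n` converge to `c L` in `L²`. -/
def HasMean (w : ℕ → ℕ → ℝ) (c : ℝ) : Prop :=
  (∀ (k : ℕ) (ε : ℝ), 0 < ε → ∃ N₀ : ℕ, ∀ N : ℕ, N₀ ≤ N → ∀ (X : Type) [MeasurableSpace X] (Y : System k X),
    (∀ f : Fin k → X → ℂ, Bounded f → ∫ x, ‖Y.avg f (fun n => w N n - c) N x‖ ^ 2 ∂Y.μ ≤ ε ^ 2) ∧
    ∀ (A₀ : Set X) (A : Fin k → Set X), MeasurableSet A₀ → (∀ i, MeasurableSet (A i)) →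
      |Y.retSum A₀ A (fun n => w N n - c) N| ≤ ε * N) ∧
  ∀ (k : ℕ) (X : Type) [MeasurableSpace X] (Y : System k X) (f : Fin k → X → ℂ), Bounded f → ∀ L : X → ℂ,
    MemLp L 2 Y.μ →
    Tendsto (fun N : ℕ => ∫ x, ‖Y.avg f (fun _ => 1) N x - L x‖ ^ 2 ∂Y.μ) atTop (𝓝 0) →
    Tendsto (fun N : ℕ => ∫ x, ‖Y.avg f (w N) N x - c * L x‖ ^ 2 ∂Y.μ) atTop (𝓝 0)

/-! ### proofs -/

open Pool.Agent.Q250.CL
open Pool.Agent.H499R2.ND (Dn cnt Bas IsHt Bas_inv Bas_density ht_iff ht_zd bas_all_iff inv_prog)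

theorem height_eq {m h : ℕ} (hh : IsHt m h) : height m = h := by
  unfold height
  apply le_antisymm
  · exact sInf_le ⟨h, hh.1, hh.2.1, rfl⟩
  · refine le_sInf ?_
    rintro k ⟨j, hj, hj1, rfl⟩
    have : h ≤ j := by
      by_contra hlt
      exact hh.2.2 j hj (by omega) hj1
    exact_mod_cast this

theorem exists_isHt {m j : ℕ} (hj : 1 ≤ j) (h : C^[j] m = 1) : ∃ h, IsHt m h := by
  classical
  have hex : ∃ k, 1 ≤ k ∧ C^[k] m = 1 := ⟨j, hj, h⟩
  refine ⟨Nat.find hex, (Nat.find_spec hex).1, (Nat.find_spec hex).2, fun k hk hlt hk1 => ?_⟩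
  exact Nat.find_min hex hlt ⟨hk, hk1⟩

theorem height_top {m : ℕ} (hh : ¬ ∃ h, IsHt m h) : height m = ⊤ := by
  unfold height
  have : {k : ℕ∞ | ∃ j : ℕ, 1 ≤ j ∧ C^[j] m = 1 ∧ k = j} = ∅ := by
    rw [Set.eq_empty_iff_forall_notMem]
    rintro k ⟨j, hj, hj1, _⟩
    exact hh (exists_isHt hj hj1)
  rw [this, sInf_empty]

theorem height_lt_top_iff {m : ℕ} : height m ≠ ⊤ ↔ ∃ h, IsHt m h := by
  constructor
  · intro h
    by_contra hcon
    exact h (height_top hcon)
  · rintro ⟨h, hh⟩
    rw [height_eq hh]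
    exact ENat.natCast_ne_top h

theorem fin_bas {m : ℕ} (hm : m % 2 = 1) : height m ≠ ⊤ ↔ Bas m :=
  height_lt_top_iff.trans (ht_iff (Nat.odd_iff.2 hm)).symm

theorem odd_density_of {P : ℕ → Prop} {δ : ℝ} (h : Dn (fun m => m % 2 = 1 ∧ P m) (δ / 2)) :
    HasOddDensity P δ := by
  unfold HasOddDensity
  have h1 := h.const_mul 2
  rw [mul_div_cancel₀ δ (by norm_num : (2 : ℝ) ≠ 0)] at h1
  refine h1.congr fun N => ?_
  have e : {m : ℕ | 1 ≤ m ∧ m ≤ N ∧ m % 2 = 1 ∧ P m} = {m : ℕ | m ≤ N ∧ Odd m ∧ P m} := by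
    ext m
    constructor
    · rintro ⟨g1, g2, g3, g4⟩
      exact ⟨g2, Nat.odd_iff.2 g3, g4⟩
    · rintro ⟨g2, g3, g4⟩
      exact ⟨g3.pos, g2, Nat.odd_iff.1 g3, g4⟩
  unfold Pool.Agent.H499R2.ND.cnt
  rw [e]
  ring

theorem const_eq : 2 / Real.log (16 / 9) = 1 / Real.log (4 / 3) := by
  have : Real.log (16 / 9) = 2 * Real.log (4 / 3) := by
    rw [show (16 : ℝ) / 9 = (4 / 3) ^ 2 by norm_num, Real.log_pow]; push_cast; ring
  rw [this]
  have : Real.log (4 / 3) ≠ 0 := (Real.log_pos (by norm_num)).ne'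
  field_simp

/-- translation -/
def conv {k : ℕ} {X : Type} [MeasurableSpace X] (Y : System k X) :
    Pool.Agent.Results.MP_2d22f3_nt.MultipleRecurrence.System k X := ⟨Y.μ, Y.prob, Y.T, Y.mp, Y.comm⟩

theorem odd_sum {E : Type} [AddCommMonoid E] (g : ℕ → E) (N : ℕ) :
    ∑ n ∈ (Finset.Icc 1 N).filter (fun n => Odd n), g n = ∑ n ∈ Finset.Icc 1 N, if n % 2 = 1 then g n else 0 := by
  rw [Finset.sum_filter]
  apply Finset.sum_congr rfl; intro n _
  by_cases h : n % 2 = 1
  · rw [if_pos h, if_pos (Nat.odd_iff.2 h)]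
  · rw [if_neg h, if_neg (fun h' => h (Nat.odd_iff.1 h'))]

theorem avg_eq {k : ℕ} {X : Type} [MeasurableSpace X] (Y : System k X) (f : Fin k → X → ℂ) (w : ℕ → ℝ) (N : ℕ) (x : X) :
    Y.avg f w N x = (∑ n ∈ Finset.Icc 1 N, ((if n % 2 = 1 then w n else 0 : ℝ) : ℂ) * (conv Y).P f n x) / N := by
  unfold System.avg
  rw [odd_sum]
  congr 1
  apply Finset.sum_congr rfl; intro n _
  by_cases h : n % 2 = 1
  · rw [if_pos h, if_pos h]; rfl
  · rw [if_neg h, if_neg h, Complex.ofReal_zero, zero_mul]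

theorem retSum_eq {k : ℕ} {X : Type} [MeasurableSpace X] (Y : System k X) (A₀ : Set X) (A : Fin k → Set X)
    (w : ℕ → ℝ) (N : ℕ) :
    Y.retSum A₀ A w N = ∑ n ∈ Finset.Icc 1 N, (if n % 2 = 1 then w n else 0) * (conv Y).ret A₀ A n := by
  unfold System.retSum
  rw [odd_sum]
  apply Finset.sum_congr rfl; intro n _
  by_cases h : n % 2 = 1
  · rw [if_pos h, if_pos h]; rfl
  · rw [if_neg h, if_neg h, zero_mul]

theorem mean_of {w : ℕ → ℕ → ℝ} {c : ℝ} (h : MEW (fun N n => if n % 2 = 1 then w N n - c else 0)) : HasMean w c := by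
  refine ⟨fun k ε hε => ?_, fun k X _ Y f hf L hL hlim => ?_⟩
  · obtain ⟨N1, H1⟩ := h k (ε ^ 2) (by positivity)
    obtain ⟨N2, H2⟩ := mew_ret h k hε
    refine ⟨N1 + N2 + 1, fun N hN X _ Y => ⟨fun f hf => ?_, fun A₀ A hA₀ hA => ?_⟩⟩
    · have h3 := H1 N (by omega) X (conv Y) f hf
      have hNp : (0 : ℝ) < N := by exact_mod_cast (by omega : 0 < N)
      have e1 : ∀ x, ‖Y.avg f (fun n => w N n - c) N x‖ ^ 2
          = 1 / (N : ℝ) ^ 2 * ‖∑ n ∈ Finset.Icc 1 N, ((if n % 2 = 1 then w N n - c else 0 : ℝ) : ℂ) * (conv Y).P f n x‖ ^ 2 := by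
        intro x
        rw [avg_eq, norm_div, Complex.norm_natCast, div_pow]
        ring
      simp_rw [e1]
      rw [integral_const_mul, one_div, inv_mul_le_iff₀ (by positivity)]
      rw [mul_comm]
      exact h3
    · rw [retSum_eq]
      exact H2 N (by omega) X (conv Y) A₀ A hA₀ hA
  · have h1 := mew_lim (w := fun N n => if n % 2 = 1 then w N n - c else 0)
      (u := fun N n => if n % 2 = 1 then w N n else 0) (v := fun _ n => if n % 2 = 1 then 1 else 0) (c := c) h
      (Eventually.of_forall fun N n _ _ => by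
        by_cases ho : n % 2 = 1
        · simp only [ho, if_true]; ring
        · simp only [ho, if_false]; ring) (conv Y) hf hL (by
      refine hlim.congr fun N => ?_
      simp_rw [avg_eq]
      rfl)
    refine h1.congr fun N => ?_
    simp_rw [avg_eq]
    rfl

/-- the sum over the odd return times to `A` from `T⁻¹ A` -/
theorem odd_return {X : Type} [MeasurableSpace X] (Y : System 1 X) {A : Set X} (hA : MeasurableSet A) {N : ℕ} (hN : 4 ≤ N) :
    (N / 4 * Y.μ.real A ^ 2 - 1) / 2 ≤ Y.retSum (Y.T 0 ⁻¹' A) (fun _ => A) (fun _ => 1) N := by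
  have : IsProbabilityMeasure (sq2 (conv Y)).μ := Y.prob
  set M : ℕ := (N - 1) / 2 with hM
  have hM1 : 0 < M := by omega
  have h1 := Pool.Agent.Q49.ME.return_sum
    (Pool.Agent.Results.MP_2d22f3_nt.MultipleRecurrence.tp_mp (sq2 (conv Y)) 0) hA (N := M) hM1
  rw [Pool.Agent.Results.MP_2d22f3_nt.MultipleRecurrence.sum_cast] at h1
  have hmeas : ∀ n : ℕ, MeasurableSet {x | (Y.T 0)^[n] x ∈ A} := fun n => ((Y.T 0).measurable.iterate n) hA
  -- the terms
  have e1 : ∀ m : ℕ, (sq2 (conv Y)).μ.real (A ∩ ⇑(Pool.Agent.Results.MP_2d22f3_nt.MultipleRecurrence.tp (sq2 (conv Y)) 0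
      ^ (m : ℤ)) ⁻¹' A) = Y.ret (Y.T 0 ⁻¹' A) (fun _ => A) (2 * m + 1) := by
    intro m
    unfold System.ret
    have e2 : (Y.T 0 ⁻¹' A) ∩ {x | ∀ i : Fin 1, (Y.T i)^[2 * m + 1] x ∈ A}
        = Y.T 0 ⁻¹' (A ∩ {x | (Y.T 0)^[2 * m] x ∈ A}) := by
      ext x
      simp only [Set.mem_inter_iff, Set.mem_preimage, Set.mem_ofPred_eq]
      rw [← Function.iterate_succ_apply]
      constructor
      · rintro ⟨a, b⟩; exact ⟨a, b 0⟩
      · rintro ⟨a, b⟩; exact ⟨a, fun i => by rw [Fin.fin_one_eq_zero i]; exact b⟩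
    rw [e2]
    have e3 : Y.μ.real (Y.T 0 ⁻¹' (A ∩ {x | (Y.T 0)^[2 * m] x ∈ A})) = Y.μ.real (A ∩ {x | (Y.T 0)^[2 * m] x ∈ A}) := by
      unfold Measure.real
      rw [(Y.mp 0).measure_preimage (hA.inter (hmeas _)).nullMeasurableSet]
    rw [e3]
    show Y.μ.real _ = _
    congr 1
    ext x
    simp only [Set.mem_inter_iff, Set.mem_preimage, Set.mem_ofPred_eq]
    rw [Pool.Agent.Results.MP_2d22f3_nt.MultipleRecurrence.tp_pow, sq2_iter]
    rfl
  simp_rw [e1] at h1
  have h2 : ∑ m ∈ Finset.Icc 1 M, Y.ret (Y.T 0 ⁻¹' A) (fun _ => A) (2 * m + 1)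
      ≤ Y.retSum (Y.T 0 ⁻¹' A) (fun _ => A) (fun _ => 1) N := by
    unfold System.retSum
    simp_rw [one_mul]
    rw [← Finset.sum_image (s := Finset.Icc 1 M) (g := fun m => 2 * m + 1)
      (f := fun n => Y.ret (Y.T 0 ⁻¹' A) (fun _ => A) n) (fun a _ b _ hab => by simp only at hab; omega)]
    apply Finset.sum_le_sum_of_subset_of_nonneg
    · intro n hn
      rw [Finset.mem_image] at hn
      obtain ⟨m, hm, rfl⟩ := hn
      rw [Finset.mem_Icc] at hm
      rw [Finset.mem_filter, Finset.mem_Icc]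
      exact ⟨⟨by omega, by omega⟩, ⟨m, rfl⟩⟩
    · intro n _ _
      exact measureReal_nonneg
  refine le_trans ?_ h2
  refine le_trans ?_ h1
  have h3 : (N : ℝ) / 4 ≤ M := by
    have : N ≤ 4 * M := by omega
    have h4 : (N : ℝ) ≤ 4 * M := by exact_mod_cast this
    linarith
  have h5 : (N : ℝ) / 4 * Y.μ.real A ^ 2 ≤ M * Y.μ.real A ^ 2 := mul_le_mul_of_nonneg_right h3 (sq_nonneg _)
  have h6 : (sq2 (conv Y)).μ.real A = Y.μ.real A := rfl
  rw [h6]
  linarith

open scoped Classical in
/-- THE AVERAGE HEIGHT AT ODD RETURN TIMES. There is `0 < δ ≤ 1`, the natural density among the odd positive integers of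
those with finite height, equal to `1` if and only if all heights are finite, such that, with `c = 2 / log (16/9)`, in the
sense of `HasMean`: (1) the indicator function of the odd `n` with finite height has the mean value `δ` in multiple
ergodic averages over the odd integers, and so has that of the odd `n` with `|h(n) - c log n| ≤ η log n`, for every
`η > 0`; (2) for every `Λ > c` the numbers `min (h(n), Λ log N) / log N` have the mean value `δ c + (1 - δ) Λ`. (3) If, for some
`Λ > c` and `κ > 0` and infinitely many `N`, there are a system and sets such that the sum over the odd `n ≤ N` of the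
measures of `A₀ ∩ T 1 ^ (-n) A 1 ∩ ... ∩ T k ^ (-n) A k` is at least `κ N`, and the average of `min (h(n), Λ log N)` with
these measures as weights is at most `(c + o(1)) log N`, then all heights are finite. (4) Let `A` be a set of positive
measure for one invertible measure preserving transformation `T`. If, for infinitely many `N`, up to `o(N)` exceptions
`n ≤ N`, all odd `n` for which `T ^ (-1) A ∩ T ^ (-n) A` has positive measure have finite height, then all heights are
finite. -/
theorem result : ∃ δ : ℝ, 0 < δ ∧ δ ≤ 1 ∧ (δ = 1 ↔ ∀ m : ℕ, Odd m → height m ≠ ⊤) ∧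
    HasOddDensity (fun m => height m ≠ ⊤) δ ∧
    HasMean (fun _ n => if height n ≠ ⊤ then 1 else 0) δ ∧
    (∀ η : ℝ, 0 < η → HasMean (fun _ n => if Typical η n then 1 else 0) δ) ∧
    (∀ Λ : ℝ, 2 / Real.log (16 / 9) < Λ → HasMean (fun N n => truncated (Λ * Real.log N) n / Real.log N)
      (δ * (2 / Real.log (16 / 9)) + (1 - δ) * Λ)) ∧
    (∀ (k : ℕ) (Λ κ : ℝ) (ψ : ℕ → ℝ), 2 / Real.log (16 / 9) < Λ → 0 < κ → Tendsto ψ atTop (𝓝 0) →
      (∃ᶠ N : ℕ in atTop, ∃ (X : Type) (_ : MeasurableSpace X) (Y : System k X) (A₀ : Set X) (A : Fin k → Set X),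
        MeasurableSet A₀ ∧ (∀ i, MeasurableSet (A i)) ∧ κ * N ≤ Y.retSum A₀ A (fun _ => 1) N ∧
        Y.retSum A₀ A (truncated (Λ * Real.log N)) N
          ≤ (2 / Real.log (16 / 9) + ψ N) * Real.log N * Y.retSum A₀ A (fun _ => 1) N) →
      ∀ m : ℕ, Odd m → height m ≠ ⊤) ∧
    ∀ (X : Type) [MeasurableSpace X] (Y : System 1 X) (A : Set X), MeasurableSet A → 0 < Y.μ A →
      ∀ ψ : ℕ → ℝ, Tendsto ψ atTop (𝓝 0) →
        (∃ᶠ N : ℕ in atTop, ({n : ℕ | n ≤ N ∧ Odd n ∧ 0 < Y.ret (Y.T 0 ⁻¹' A) (fun _ => A) n ∧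
          height n = ⊤}.ncard : ℝ) ≤ ψ N * N) → ∀ m : ℕ, Odd m → height m ≠ ⊤ := by
  obtain ⟨δ, h0, h1, h2, h3⟩ := Bas_density
  rw [const_eq]
  set c : ℝ := 1 / Real.log (4 / 3) with hc
  have hL43 : 0 < Real.log (4 / 3) := Real.log_pos (by norm_num)
  have hc0 : 0 < c := by positivity
  have hB : Dn (fun m => m % 2 = 1 ∧ Bas m) (δ / 2) := by
    have := inv_prog Bas_inv h3 (q := 2) (by norm_num) 1
    exact_mod_cast this
  have hdens : HasOddDensity (fun m => height m ≠ ⊤) δ := by
    apply odd_density_of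
    exact Pool.Agent.H499R2.LT.Dn_iff (fun n _ => and_congr_right fun h => (fin_bas h).symm) hB
  have hall : (∀ m : ℕ, Odd m → height m ≠ ⊤) ↔ ∀ n : ℕ, 1 ≤ n → Bas n := by
    rw [bas_all_iff]
    exact forall_congr' fun m => forall_congr' fun _ => height_lt_top_iff
  have hone : δ = 1 → ∀ m : ℕ, Odd m → height m ≠ ⊤ := fun h => hall.2 (h2.1 h)
  -- the law of large numbers
  set s : ℕ → ℝ := fun m => ((height m).toNat : ℝ) with hs
  have hlln : ∀ η : ℝ, 0 < η → Tendsto (fun N : ℕ =>
      cnt (fun n => (n % 2 = 1 ∧ Bas n) ∧ η * Real.log n < |s n - c * Real.log n|) N / N) atTop (𝓝 0) := by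
    intro η hη
    have h4 := ht_zd h3 hη
    refine squeeze_zero' (Eventually.of_forall fun N => div_nonneg
      (Pool.Agent.H499R2.ND.cntn_nonneg _ _) (Nat.cast_nonneg _)) (Eventually.of_forall fun N => ?_) h4
    refine div_le_div_of_nonneg_right ?_ (Nat.cast_nonneg _)
    refine Pool.Agent.H499R2.ND.cnt_mono N fun n _ _ h => ⟨h.1.1, h.1.2, ?_⟩
    rintro ⟨k, hk, hk2⟩
    have e : s n = k := by
      rw [hs]; simp only; rw [height_eq hk, ENat.toNat_natCast]
    rw [e] at h
    exact absurd hk2 (not_le.2 h.2)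
  have hO : MEW (fun _ n => if n % 2 = 1 then (if Bas n then (1 : ℝ) else 0) - δ else 0) :=
    mew_odd (P := Bas) (fun n _ => Bas_inv n) h3
  have hfin : HasMean (fun _ n => if height n ≠ ⊤ then 1 else 0) δ := by
    refine mean_of (mew_congr hO (Eventually.of_forall fun N n _ _ => ?_))
    by_cases ho : n % 2 = 1
    · rw [if_pos ho, if_pos ho]
      by_cases hb : Bas n
      · rw [if_pos hb, if_pos ((fin_bas ho).2 hb)]
      · rw [if_neg hb, if_neg (fun h' => hb ((fin_bas ho).1 h'))]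
    · rw [if_neg ho, if_neg ho]
  have htyp : ∀ η : ℝ, 0 < η → HasMean (fun _ n => if Typical η n then 1 else 0) δ := by
    intro η hη
    refine mean_of (mew_near hO (squeeze_zero' (Eventually.of_forall fun N => div_nonneg
      (Finset.sum_nonneg fun n _ => abs_nonneg _) (Nat.cast_nonneg _)) (Eventually.of_forall fun N => ?_) (hlln η hη)))
    refine div_le_div_of_nonneg_right ?_ (Nat.cast_nonneg _)
    rw [cnt_sum]
    refine Finset.sum_le_sum fun n _ => ?_
    by_cases ho : n % 2 = 1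
    · rw [if_pos ho, if_pos ho, sub_sub_sub_cancel_right]
      unfold Typical
      rw [fin_bas ho, const_eq]
      by_cases hb : Bas n
      · rw [if_pos hb]
        by_cases hl : η * Real.log n < |s n - c * Real.log n|
        · rw [if_neg (fun h' => absurd hl (not_lt.2 h'.2)), if_pos ⟨⟨ho, hb⟩, hl⟩]; norm_num
        · rw [if_pos ⟨hb, not_lt.1 hl⟩, if_neg (fun h' => hl h'.2)]; norm_num
      · rw [if_neg hb, if_neg (fun h' => hb h'.1), if_neg (fun h' => hb h'.1.2)]; norm_num
    · rw [if_neg ho, if_neg ho, sub_zero, abs_zero]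
      split_ifs <;> norm_num
  have havg : ∀ Λ : ℝ, c < Λ → MEW (fun N n => if n % 2 = 1 then truncated (Λ * Real.log N) n / Real.log N
      - (δ * c + (1 - δ) * Λ) else 0) := by
    intro Λ hΛ
    refine mew_congr (mew_trunc (P := Bas) (fun n _ => Bas_inv n) h3 hc0 hΛ (s := s) (fun n => Nat.cast_nonneg _) hlln)
      (Eventually.of_forall fun N n _ _ => ?_)
    by_cases ho : n % 2 = 1
    · rw [if_pos ho, if_pos ho]
      unfold truncated
      by_cases hb : Bas n
      · rw [if_pos hb, if_neg ((fin_bas ho).2 hb)]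
        rw [div_eq_inv_mul]
      · have : height n = ⊤ := by
          by_contra hcon
          exact hb ((fin_bas ho).1 hcon)
        rw [if_neg hb, if_pos this, div_eq_inv_mul]
    · rw [if_neg ho, if_neg ho]
  refine ⟨δ, h0, h1, ⟨hone, fun h => h2.2 (hall.1 h)⟩, hdens, hfin, htyp, fun Λ hΛ => mean_of (havg Λ hΛ), ?_, ?_⟩
  · intro k Λ κ ψ hΛ hκ hψ h
    refine hone ?_
    by_contra hcon
    have hδ : 0 < 1 - δ := by
      rcases h1.lt_or_eq with h6 | h6
      · linarith
      · exact absurd h6 hcon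
    set D : ℝ := (1 - δ) * (Λ - c) with hD
    have hD0 : 0 < D := mul_pos hδ (by linarith)
    obtain ⟨N₀, H⟩ := mew_ret (havg Λ hΛ) k (show 0 < D * κ / 4 by positivity)
    have h6 : ∀ᶠ N : ℕ in atTop, ψ N < D / 2 := (tendsto_order.1 hψ).2 _ (by positivity)
    obtain ⟨N, ⟨X, _, Y, A₀, A, hA₀, hA, g3, g4⟩, h7, h8⟩ := (h.and_eventually (h6.and (eventually_ge_atTop (N₀ + 2)))).exists
    have h9 := (abs_le.1 (H N (by omega) X (conv Y) A₀ A hA₀ hA)).1
    have hlog : 0 < Real.log N := Real.log_pos (by exact_mod_cast (by omega : 1 < N))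
    have hN0 : (0 : ℝ) < N := by exact_mod_cast (by omega : 0 < N)
    set R : ℝ := Y.retSum A₀ A (fun _ => 1) N with hR
    have hR0 : 0 < R := lt_of_lt_of_le (by positivity) g3
    have e1 : ∑ n ∈ Finset.Icc 1 N, (if n % 2 = 1 then truncated (Λ * Real.log N) n / Real.log N
        - (δ * c + (1 - δ) * Λ) else 0) * (conv Y).ret A₀ A n
        = (Real.log N)⁻¹ * Y.retSum A₀ A (truncated (Λ * Real.log N)) N - (δ * c + (1 - δ) * Λ) * R := by
      rw [hR, retSum_eq, retSum_eq, Finset.mul_sum, Finset.mul_sum, ← Finset.sum_sub_distrib]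
      apply Finset.sum_congr rfl; intro n _
      by_cases ho : n % 2 = 1
      · rw [if_pos ho, if_pos ho, if_pos ho, div_eq_inv_mul]; ring
      · rw [if_neg ho, if_neg ho, if_neg ho]; ring
    rw [e1] at h9
    have h10 : (Real.log N)⁻¹ * Y.retSum A₀ A (truncated (Λ * Real.log N)) N ≤ (c + ψ N) * R := by
      rw [inv_mul_le_iff₀ hlog]
      refine g4.trans (le_of_eq ?_)
      ring
    have h11 : D * κ / 4 * N ≤ D / 4 * R := by
      calc _ = D / 4 * (κ * N) := by ring
        _ ≤ D / 4 * R := mul_le_mul_of_nonneg_left g3 (by positivity)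
    have h12 : ψ N * R < D / 2 * R := mul_lt_mul_of_pos_right h7 hR0
    have h13 : (δ * c + (1 - δ) * Λ) * R = c * R + D * R := by
      rw [hD]; ring
    have h14 : 0 < D * R := by positivity
    nlinarith
  · intro X _ Y A hA hpos ψ hψ h
    have := Y.prob
    refine hone ?_
    by_contra hcon
    have hδ : 0 < 1 - δ := by
      rcases h1.lt_or_eq with h6 | h6
      · linarith
      · exact absurd h6 hcon
    have hm : 0 < Y.μ.real A := by
      unfold Measure.real
      exact ENNReal.toReal_pos hpos.ne' (measure_ne_top _ _)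
    set m : ℝ := Y.μ.real A with hmd
    have hκ : 0 < m ^ 2 / 16 := by positivity
    obtain ⟨N₀, H⟩ := mew_ret hO 1 (show 0 < (1 - δ) * (m ^ 2 / 16) / 4 by positivity)
    have h6 : ∀ᶠ N : ℕ in atTop, ψ N < (1 - δ) * (m ^ 2 / 16) / 4 := (tendsto_order.1 hψ).2 _ (by positivity)
    obtain ⟨N1, hN1⟩ := exists_nat_ge (8 / m ^ 2)
    obtain ⟨N, g, h7, h8⟩ := (h.and_eventually (h6.and (eventually_ge_atTop (N₀ + N1 + 4)))).exists
    have hN0 : (0 : ℝ) < N := by exact_mod_cast (by omega : 0 < N)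
    have hAm : MeasurableSet (Y.T 0 ⁻¹' A) := (Y.T 0).measurable hA
    have h9 := (abs_le.1 (H N (by omega) X (conv Y) (Y.T 0 ⁻¹' A) (fun _ => A) hAm (fun _ => hA))).2
    have h10 := odd_return Y hA (N := N) (by omega)
    set R : ℝ := Y.retSum (Y.T 0 ⁻¹' A) (fun _ => A) (fun _ => 1) N with hR
    have hRlow : m ^ 2 / 16 * N ≤ R := by
      refine le_trans ?_ h10
      have h11 : (N1 : ℝ) ≤ N := by exact_mod_cast (by omega : N1 ≤ N)
      have h12 : 8 / m ^ 2 ≤ N := hN1.trans h11
      rw [div_le_iff₀ (by positivity)] at h12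
      rw [← hmd]
      linarith
    have e1 : ∑ n ∈ Finset.Icc 1 N, (if n % 2 = 1 then (if Bas n then (1 : ℝ) else 0) - δ else 0)
        * (conv Y).ret (Y.T 0 ⁻¹' A) (fun _ => A) n
        = (1 - δ) * R - Y.retSum (Y.T 0 ⁻¹' A) (fun _ => A) (fun n => if Bas n then 0 else 1) N := by
      rw [hR, retSum_eq, retSum_eq, Finset.mul_sum, ← Finset.sum_sub_distrib]
      apply Finset.sum_congr rfl; intro n _
      by_cases ho : n % 2 = 1
      · by_cases hb : Bas n
        · simp [ho, hb]
        · simp [ho, hb]; ring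
      · simp [ho]
    rw [e1] at h9
    have h13 : Y.retSum (Y.T 0 ⁻¹' A) (fun _ => A) (fun n => if Bas n then 0 else 1) N ≤ ψ N * N := by
      refine le_trans ?_ g
      have e2 : {n : ℕ | n ≤ N ∧ Odd n ∧ 0 < Y.ret (Y.T 0 ⁻¹' A) (fun _ => A) n ∧ height n = ⊤} =
          ((Finset.Icc 1 N).filter (fun n : ℕ => Odd n ∧ 0 < Y.ret (Y.T 0 ⁻¹' A) (fun _ => A) n ∧ height n = ⊤) :
            Finset ℕ) := by
        ext n
        simp only [Set.mem_ofPred_eq, Finset.coe_filter, Finset.mem_Icc]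
        constructor
        · rintro ⟨a, b, d⟩; exact ⟨⟨b.pos, a⟩, b, d⟩
        · rintro ⟨⟨_, a⟩, b, d⟩; exact ⟨a, b, d⟩
      rw [e2, Set.ncard_coe_finset, Finset.card_filter]
      unfold System.retSum
      rw [odd_sum]
      push_cast
      apply Finset.sum_le_sum; intro n _
      have hr0 : 0 ≤ Y.ret (Y.T 0 ⁻¹' A) (fun _ => A) n := measureReal_nonneg
      have hr1 : Y.ret (Y.T 0 ⁻¹' A) (fun _ => A) n ≤ 1 := measureReal_le_one
      by_cases ho : n % 2 = 1
      · rw [if_pos ho]
        by_cases hb : Bas n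
        · rw [if_pos hb, zero_mul]
          split_ifs <;> norm_num
        · have htop : height n = ⊤ := by
            by_contra hcon
            exact hb ((fin_bas ho).1 hcon)
          rw [if_neg hb, one_mul]
          by_cases h5 : 0 < Y.ret (Y.T 0 ⁻¹' A) (fun _ => A) n
          · rw [if_pos ⟨Nat.odd_iff.2 ho, h5, htop⟩]
            exact hr1
          · have h6 : Y.ret (Y.T 0 ⁻¹' A) (fun _ => A) n = 0 := le_antisymm (not_lt.1 h5) hr0
            rw [h6]
            split_ifs <;> norm_num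
      · rw [if_neg ho]
        split_ifs <;> norm_num
    have h14 : ψ N * N < (1 - δ) * (m ^ 2 / 16) / 4 * N := mul_lt_mul_of_pos_right h7 hN0
    have h15 : (1 - δ) * (m ^ 2 / 16 * N) ≤ (1 - δ) * R := mul_le_mul_of_nonneg_left hRlow hδ.le
    have h16 : 0 < (1 - δ) * (m ^ 2 / 16) * N := by positivity
    linarith

end Pool.Agent.Results.MP_2b866c_nt.HeightsInErgodicAverages
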