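import Pool.Agent.Q250.CL.WarW

set_option autoImplicit false

/-!
# The average height in Waring's problem

Let there be given families of integers of size at most `N`, at least `2 t` of which have a `t`-th additive
energy bounded by a constant times that of a random family; for example the values of given nonconstant
polynomials at the first few integers. For EVERY integer `n` of size `O(N)` consider the representations of `n` as
the sum of an ODD positive integer `x` and of one member of each family. The average of the heights `h(x)`, truncated at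
`Λ log N`, over these representations is `(2 / log (16/9) + o(1)) log N` if all heights are finite, and
`(δ 2 / log (16/9) + (1 - δ) Λ + o(1)) log N` in any case, as for the average over all odd integers, where `δ > 0` is the
density of the odd integers of finite height; so the predicted average order `2 log x / log (16/9)` of the question,
for one sequence of such families of representations, implies that all heights are finite. Consequently every large
integer is the sum of an odd `x` with `|h(x) - 2 / log (16/9) log x| ≤ η log x` and of `r` positive `k`-th powers,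
`r = r(k)`, for at least `κ n ^ (r / k)` choices of the powers.

Method: Fourier uniformity of the integers which reach `1`, twisted by the character of order two, the circle method
on a cyclic group (`Pool/Agent/Q49/WA`), bounds of moments of Weyl sums (starting file `Pool/Agent/Y834/CD/Poly.lean`),
and the law of large numbers for the heights.
-/

namespace Pool.Agent.Results.MP_2b866c_nt.HeightsInWaringProblem

open Filter Topology

/-- `C(m) = (3m+1)/2^e(m)`, `2^e(m)` the largest power of `2` dividing `3m+1` -/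
def C (m : ℕ) : ℕ := (3 * m + 1) / 2 ^ padicValNat 2 (3 * m + 1)

/-- the height `h(m)`, the least `k ≥ 1` with `C^k(m) = 1`, and `⊤ = ∞` if there is none -/
noncomputable def height (m : ℕ) : ℕ∞ := sInf {k : ℕ∞ | ∃ j : ℕ, 1 ≤ j ∧ C^[j] m = 1 ∧ k = j}

/-- the height truncated at `T`, that is `min (h(m), T)` -/
noncomputable def truncated (T : ℝ) (m : ℕ) : ℝ := if height m = ⊤ then T else min ((height m).toNat : ℝ) T

/-- the height is finite and differs from `2 / log (16/9) * log m` by at most `η log m` -/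
def Typical (η : ℝ) (m : ℕ) : Prop :=
  height m ≠ ⊤ ∧ |((height m).toNat : ℝ) - 2 / Real.log (16 / 9) * Real.log m| ≤ η * Real.log m

/-- among the odd positive integers, those with the property `P` have the natural density `δ` -/
def HasOddDensity (P : ℕ → Prop) (δ : ℝ) : Prop :=
  Tendsto (fun N : ℕ => 2 / (N : ℝ) * ({m : ℕ | m ≤ N ∧ Odd m ∧ P m}.ncard : ℝ)) atTop (𝓝 δ)

/-- The number of the pairs of `t`-tuples of members of the family `a` with the same sum. -/
noncomputable def energy (t : ℕ) {L : ℕ} (a : Fin L → ℤ) : ℕ :=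
  {p : (Fin t → Fin L) × (Fin t → Fin L) | ∑ i, a (p.1 i) = ∑ i, a (p.2 i)}.ncard

/-- The energy of the family `a` is at most `K L ^ (2 t) / N`. -/
def Spread (t : ℕ) (K : ℝ) (N : ℕ) {L : ℕ} (a : Fin L → ℤ) : Prop :=
  (energy t a : ℝ) ≤ K * (L : ℝ) ^ (2 * t) / N

/-- The values of `F` at `1, ..., L`. -/
noncomputable def vals (F : Polynomial ℤ) (L : ℕ) : Fin L → ℤ :=
  fun m => F.eval (((m : ℕ) + 1 : ℕ) : ℤ)

/-- The number of the choices `v` of one member `a j (v j)` of each family such that the difference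
`x` of `n` and the sum of these members is positive and odd and has the property `Q`. -/
noncomputable def repsOdd (Q : ℕ → Prop) (n : ℤ) {r : ℕ} {L : Fin r → ℕ} (a : ∀ j, Fin (L j) → ℤ) : ℕ :=
  {v : ∀ j, Fin (L j) | 0 < n - ∑ j, a j (v j) ∧ Odd (n - ∑ j, a j (v j)) ∧ Q (n - ∑ j, a j (v j)).toNat}.ncard

open scoped Classical in
/-- The sum of the `w x` over these choices (with the difference `x` positive and odd). -/
noncomputable def sumOdd (w : ℕ → ℝ) (n : ℤ) {r : ℕ} {L : Fin r → ℕ} (a : ∀ j, Fin (L j) → ℤ) : ℝ :=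
  ∑ v : (∀ j, Fin (L j)), if 0 < n - ∑ j, a j (v j) ∧ Odd (n - ∑ j, a j (v j)) then w (n - ∑ j, a j (v j)).toNat else 0

/-- The number of the `r`-tuples of positive integers `m j` for which the difference `x` of `n` and the sum of the
`m j ^ k` is positive and odd and has the property `Q`. -/
noncomputable def powReps (Q : ℕ → Prop) (n k r : ℕ) : ℕ :=
  {m : Fin r → ℕ | (∀ j, 1 ≤ m j) ∧ ∑ j, m j ^ k < n ∧ Odd (n - ∑ j, m j ^ k) ∧ Q (n - ∑ j, m j ^ k)}.ncard

/-- The situation: `r` families of integers of absolute value at most `N`, at least `2 t` of which have energy at most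
`K L ^ (2 t) / N`, and an integer `n` with `|n| ≤ B N`. -/
def Situation (t B : ℕ) (K : ℝ) (N : ℕ) {r : ℕ} (L : Fin r → ℕ) (a : ∀ j, Fin (L j) → ℤ) (n : ℤ) : Prop :=
  (∀ j i, |a j i| ≤ N) ∧ (∃ J : Finset (Fin r), 2 * t ≤ J.card ∧ ∀ j ∈ J, Spread t K N (a j)) ∧ |n| ≤ B * N

/-- The property `Q` has the frequency `c` among the odd summands `x`: for all `r`, `t ≥ 1`, `B`, `K`, `ε > 0`, if `N` is
large, then in every situation as above the number of the representations with an odd `x` with the property `Q` is `c`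
times the number of the representations with an odd `x`, up to `ε` times the number of all choices. -/
def Frequency (Q : ℕ → Prop) (c : ℝ) : Prop := ∀ (r t B : ℕ), 1 ≤ t → ∀ K ε : ℝ, 0 < ε → ∃ N₀ : ℕ, ∀ N : ℕ, N₀ ≤ N →
  ∀ (L : Fin r → ℕ) (a : ∀ j, Fin (L j) → ℤ) (n : ℤ), Situation t B K N L a n →
    |(repsOdd Q n a : ℝ) - c * repsOdd (fun _ => True) n a| ≤ ε * ∏ j, (L j : ℝ)

/-! ### proofs -/

open Pool.Agent.Q250.CL
open Pool.Agent.H499R2.ND (Dn cnt Bas IsHt Bas_inv Bas_density ht_iff ht_zd bas_all_iff inv_prog)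

theorem height_eq {m h : ℕ} (hh : IsHt m h) : height m = h := by
  unfold height
  apply le_antisymm
  · exact sInf_le ⟨h, hh.1, hh.2.1, rfl⟩
  · refine le_sInf ?_
    rintro k ⟨j, hj, hj1, rfl⟩
    have : h ≤ j := by
      by_contra hlt
      exact hh.2.2 j hj (by omega) hj1
    exact_mod_cast this

theorem exists_isHt {m j : ℕ} (hj : 1 ≤ j) (h : C^[j] m = 1) : ∃ h, IsHt m h := by
  classical
  have hex : ∃ k, 1 ≤ k ∧ C^[k] m = 1 := ⟨j, hj, h⟩
  refine ⟨Nat.find hex, (Nat.find_spec hex).1, (Nat.find_spec hex).2, fun k hk hlt hk1 => ?_⟩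
  exact Nat.find_min hex hlt ⟨hk, hk1⟩

theorem height_top {m : ℕ} (hh : ¬ ∃ h, IsHt m h) : height m = ⊤ := by
  unfold height
  have : {k : ℕ∞ | ∃ j : ℕ, 1 ≤ j ∧ C^[j] m = 1 ∧ k = j} = ∅ := by
    rw [Set.eq_empty_iff_forall_notMem]
    rintro k ⟨j, hj, hj1, _⟩
    exact hh (exists_isHt hj hj1)
  rw [this, sInf_empty]

theorem height_lt_top_iff {m : ℕ} : height m ≠ ⊤ ↔ ∃ h, IsHt m h := by
  constructor
  · intro h
    by_contra hcon
    exact h (height_top hcon)
  · rintro ⟨h, hh⟩
    rw [height_eq hh]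
    exact ENat.natCast_ne_top h

theorem fin_bas {m : ℕ} (hm : m % 2 = 1) : height m ≠ ⊤ ↔ Bas m :=
  height_lt_top_iff.trans (ht_iff (Nat.odd_iff.2 hm)).symm

theorem odd_density_of {P : ℕ → Prop} {δ : ℝ} (h : Dn (fun m => m % 2 = 1 ∧ P m) (δ / 2)) :
    HasOddDensity P δ := by
  unfold HasOddDensity
  have h1 := h.const_mul 2
  rw [mul_div_cancel₀ δ (by norm_num : (2 : ℝ) ≠ 0)] at h1
  refine h1.congr fun N => ?_
  have e : {m : ℕ | 1 ≤ m ∧ m ≤ N ∧ m % 2 = 1 ∧ P m} = {m : ℕ | m ≤ N ∧ Odd m ∧ P m} := by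
    ext m
    constructor
    · rintro ⟨g1, g2, g3, g4⟩
      exact ⟨g2, Nat.odd_iff.2 g3, g4⟩
    · rintro ⟨g2, g3, g4⟩
      exact ⟨g3.pos, g2, Nat.odd_iff.1 g3, g4⟩
  unfold Pool.Agent.H499R2.ND.cnt
  rw [e]
  ring

theorem const_eq : 2 / Real.log (16 / 9) = 1 / Real.log (4 / 3) := by
  have : Real.log (16 / 9) = 2 * Real.log (4 / 3) := by
    rw [show (16 : ℝ) / 9 = (4 / 3) ^ 2 by norm_num, Real.log_pow]; push_cast; ring
  rw [this]
  have : Real.log (4 / 3) ≠ 0 := (Real.log_pos (by norm_num)).ne'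
  field_simp

theorem repsOdd_eq (Q : ℕ → Prop) (n : ℤ) {r : ℕ} {L : Fin r → ℕ} (a : ∀ j, Fin (L j) → ℤ) :
    repsOdd Q n a = Pool.Agent.Q49.WA.repsQ (fun x => x.toNat % 2 = 1 ∧ Q x.toNat) n a := by
  unfold repsOdd Pool.Agent.Q49.WA.repsQ
  congr 1
  ext v
  simp only [Set.mem_ofPred_eq]
  refine and_congr_right fun h => and_congr_left' ?_
  rw [Int.odd_iff]
  omega

open scoped Classical in
theorem repsOdd_sum (Q : ℕ → Prop) (n : ℤ) {r : ℕ} {L : Fin r → ℕ} (a : ∀ j, Fin (L j) → ℤ) :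
    (repsOdd Q n a : ℝ) = repSum (fun m => if m % 2 = 1 ∧ Q m then 1 else 0) n a := by
  rw [repSum_odd, repsOdd_eq]

open scoped Classical in
theorem repsOdd_true (n : ℤ) {r : ℕ} {L : Fin r → ℕ} (a : ∀ j, Fin (L j) → ℤ) :
    (repsOdd (fun _ => True) n a : ℝ) = repSum (fun m => if m % 2 = 1 then 1 else 0) n a := by
  rw [repsOdd_sum]
  congr 1
  funext m
  simp

open scoped Classical in
theorem sumOdd_eq (w w' : ℕ → ℝ) (hw : ∀ m, m % 2 = 1 → w m = w' m) (n : ℤ) {r : ℕ} {L : Fin r → ℕ}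
    (a : ∀ j, Fin (L j) → ℤ) : sumOdd w n a = repSum (fun m => if m % 2 = 1 then w' m else 0) n a := by
  unfold sumOdd repSum
  apply Finset.sum_congr rfl; intro v _
  by_cases h : 0 < n - ∑ j, a j (v j)
  · by_cases ho : Odd (n - ∑ j, a j (v j))
    · have h1 : (n - ∑ j, a j (v j)).toNat % 2 = 1 := by rw [Int.odd_iff] at ho; omega
      simp only [h, ho, and_self, if_true, h1]
      exact hw _ h1
    · have h1 : ¬ (n - ∑ j, a j (v j)).toNat % 2 = 1 := by rw [Int.odd_iff] at ho; omega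
      simp only [h, ho, and_false, if_true, if_false, h1]
  · simp only [h, false_and, if_false]

theorem powReps_eq (Q : ℕ → Prop) (n k r : ℕ) :
    powReps Q n k r = Pool.Agent.Q49.WA.polyRepsQ (fun x => x.toNat % 2 = 1 ∧ Q x.toNat) n (Polynomial.X ^ k) r := by
  unfold powReps Pool.Agent.Q49.WA.polyRepsQ
  congr 1
  ext m
  simp only [Set.mem_ofPred_eq, Polynomial.eval_pow, Polynomial.eval_X]
  have e2 : ∑ j, (m j : ℤ) ^ k = ((∑ j, m j ^ k : ℕ) : ℤ) := by push_cast; rfl
  rw [e2]
  set S := ∑ j, m j ^ k with hS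
  have e3 : ((n : ℤ) - (S : ℤ)).toNat = n - S := by omega
  rw [e3]
  constructor
  · rintro ⟨h1, h2, h3, h4⟩
    refine ⟨fun j => ⟨h1 j, ?_⟩, by omega, Nat.odd_iff.1 h3, h4⟩
    have h5 : m j ^ k ≤ S := Finset.single_le_sum (f := fun j => m j ^ k) (fun _ _ => Nat.zero_le _) (Finset.mem_univ j)
    rw [abs_of_nonneg (by positivity)]
    exact_mod_cast (by omega : m j ^ k ≤ n)
  · rintro ⟨h1, h2, h3, h4⟩
    exact ⟨fun j => (h1 j).1, by omega, Nat.odd_iff.2 h3, h4⟩

/-- THE AVERAGE HEIGHT IN WARING'S PROBLEM. There is `0 < δ ≤ 1`, the natural density among the odd positive integers of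
those with finite height, equal to `1` if and only if all heights are finite, such that, with `c = 2 / log (16/9)`:
(1) in the sense of `Frequency` the odd `x` with finite height have the frequency `δ` among the odd summands `x`, and so
have those with `|h(x) - c log x| ≤ η log x`, for every `η > 0`. (2) For all `Λ > c`, `r`, `t ≥ 1`, `B`, `K`, `ε > 0`, if
`N` is large, in every situation the sum of `min (h(x), Λ log N)` over the representations with an odd `x` is
`(δ c + (1 - δ) Λ) log N` times their number, up to `ε log N` times the number of all choices. (3) If, for some `Λ > c`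
and `θ > 0` and infinitely many `N`, there is a situation with at least `θ` times the number of all choices (and at least
one) representations with an odd `x`, and the average of `min (h(x), Λ log N)` over them is at most `(c + o(1)) log N`,
then all heights are finite. (4) For every nonconstant integer polynomial `F` there are `t ≥ 1`, `K` such that the families
`F(1), ..., F(L)` have energy at most `K B L ^ (2 t) / N` if `N ≤ B L ^ deg F`. (5) For every `k ≥ 1` there is `r₀` such
that for every `r ≥ r₀` and `η > 0`, for every large `n` at least `κ n ^ (r / k)` tuples of positive integers `m j` are such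
that `n` is the sum of the `m j ^ k` and of an odd `x > 0` with `|h(x) - c log x| ≤ η log x`; and if for infinitely many
`n` only `o(n ^ (r / k))` of the tuples lead to an odd `x > 0` of infinite height, then all heights are finite. -/
theorem result : ∃ δ : ℝ, 0 < δ ∧ δ ≤ 1 ∧ (δ = 1 ↔ ∀ m : ℕ, Odd m → height m ≠ ⊤) ∧
    HasOddDensity (fun m => height m ≠ ⊤) δ ∧
    Frequency (fun m => height m ≠ ⊤) δ ∧ (∀ η : ℝ, 0 < η → Frequency (Typical η) δ) ∧
    (∀ Λ : ℝ, 2 / Real.log (16 / 9) < Λ → ∀ (r t B : ℕ), 1 ≤ t → ∀ K ε : ℝ, 0 < ε → ∃ N₀ : ℕ, ∀ N : ℕ, N₀ ≤ N →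
      ∀ (L : Fin r → ℕ) (a : ∀ j, Fin (L j) → ℤ) (n : ℤ), Situation t B K N L a n →
        |sumOdd (truncated (Λ * Real.log N)) n a
          - (δ * (2 / Real.log (16 / 9)) + (1 - δ) * Λ) * Real.log N * repsOdd (fun _ => True) n a|
          ≤ ε * Real.log N * ∏ j, (L j : ℝ)) ∧
    (∀ (Λ θ K : ℝ) (r t B : ℕ) (ψ : ℕ → ℝ), 2 / Real.log (16 / 9) < Λ → 0 < θ → 1 ≤ t → Tendsto ψ atTop (𝓝 0) →
      (∃ᶠ N : ℕ in atTop, ∃ (L : Fin r → ℕ) (a : ∀ j, Fin (L j) → ℤ) (n : ℤ), Situation t B K N L a n ∧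
        0 < repsOdd (fun _ => True) n a ∧ θ * ∏ j, (L j : ℝ) ≤ repsOdd (fun _ => True) n a ∧
        sumOdd (truncated (Λ * Real.log N)) n a
          ≤ (2 / Real.log (16 / 9) + ψ N) * Real.log N * repsOdd (fun _ => True) n a) →
      ∀ m : ℕ, Odd m → height m ≠ ⊤) ∧
    (∀ F : Polynomial ℤ, 1 ≤ F.natDegree → ∃ t : ℕ, 1 ≤ t ∧ ∃ K : ℝ, ∀ B L N : ℕ, 1 ≤ N →
      N ≤ B * L ^ F.natDegree → Spread t (K * B) N (vals F L)) ∧
    ∀ k : ℕ, 1 ≤ k → ∃ r₀ : ℕ, 1 ≤ r₀ ∧ ∀ r : ℕ, r₀ ≤ r →
      (∀ η : ℝ, 0 < η → ∃ κ : ℝ, 0 < κ ∧ ∃ n₀ : ℕ, ∀ n : ℕ, n₀ ≤ n →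
        κ * (n : ℝ) ^ ((r : ℝ) / k) ≤ powReps (Typical η) n k r) ∧
      ∀ ψ : ℕ → ℝ, Tendsto ψ atTop (𝓝 0) →
        (∃ᶠ n : ℕ in atTop, (powReps (fun m => height m = ⊤) n k r : ℝ) ≤ ψ n * (n : ℝ) ^ ((r : ℝ) / k)) →
        ∀ m : ℕ, Odd m → height m ≠ ⊤ := by
  classical
  obtain ⟨δ, h0, h1, h2, h3⟩ := Bas_density
  rw [const_eq]
  set c : ℝ := 1 / Real.log (4 / 3) with hc
  have hL43 : 0 < Real.log (4 / 3) := Real.log_pos (by norm_num)
  have hc0 : 0 < c := by positivity
  have hF : FU Bas δ := fu_inv (P := Bas) (fun n _ => Bas_inv n) h3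
  have hB : Dn (fun m => m % 2 = 1 ∧ Bas m) (δ / 2) := by
    have := inv_prog Bas_inv h3 (q := 2) (by norm_num) 1
    exact_mod_cast this
  have hdens : HasOddDensity (fun m => height m ≠ ⊤) δ := by
    apply odd_density_of
    exact Pool.Agent.H499R2.LT.Dn_iff (fun n _ => and_congr_right fun h => (fin_bas h).symm) hB
  have hall : (∀ m : ℕ, Odd m → height m ≠ ⊤) ↔ ∀ n : ℕ, 1 ≤ n → Bas n := by
    rw [bas_all_iff]
    exact forall_congr' fun m => forall_congr' fun _ => height_lt_top_iff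
  have hone : δ = 1 → ∀ m : ℕ, Odd m → height m ≠ ⊤ := fun h => hall.2 (h2.1 h)
  -- the law of large numbers
  set s : ℕ → ℝ := fun m => ((height m).toNat : ℝ) with hs
  have hlln : ∀ η : ℝ, 0 < η → Tendsto (fun N : ℕ =>
      cnt (fun n => (n % 2 = 1 ∧ Bas n) ∧ η * Real.log n < |s n - c * Real.log n|) N / N) atTop (𝓝 0) := by
    intro η hη
    have h4 := ht_zd h3 hη
    refine squeeze_zero' (Eventually.of_forall fun N => div_nonneg
      (Pool.Agent.H499R2.ND.cntn_nonneg _ _) (Nat.cast_nonneg _)) (Eventually.of_forall fun N => ?_) h4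
    refine div_le_div_of_nonneg_right ?_ (Nat.cast_nonneg _)
    refine Pool.Agent.H499R2.ND.cnt_mono N fun n _ _ h => ⟨h.1.1, h.1.2, ?_⟩
    rintro ⟨k, hk, hk2⟩
    have e : s n = k := by
      rw [hs]; simp only; rw [height_eq hk, ENat.toNat_natCast]
    rw [e] at h
    exact absurd hk2 (not_le.2 h.2)
  -- typical heights
  have hT : ∀ η : ℝ, 0 < η → ∃ Q : ℕ → Prop, FU Q δ ∧ ∀ m, m % 2 = 1 → (Q m ↔ Typical η m) := by
    intro η hη
    refine ⟨fun m => if m % 2 = 1 then Typical η m else Bas m, ?_, fun m hm => by simp only [hm, if_true]⟩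
    refine fu_near hF ?_
    refine squeeze_zero' (Eventually.of_forall fun N => div_nonneg
      (Pool.Agent.H499R2.ND.cntn_nonneg _ _) (Nat.cast_nonneg _)) (Eventually.of_forall fun N => ?_) (hlln η hη)
    refine div_le_div_of_nonneg_right ?_ (Nat.cast_nonneg _)
    refine Pool.Agent.H499R2.ND.cnt_mono N fun n _ _ h => ?_
    by_cases ho : n % 2 = 1
    · rw [if_pos ho] at h
      unfold Typical at h
      rw [fin_bas ho, const_eq] at h
      by_cases hb : Bas n
      · refine ⟨⟨ho, hb⟩, ?_⟩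
        by_contra hcon
        exact h ⟨fun _ => ⟨hb, not_lt.1 hcon⟩, fun h' => h'.1⟩
      · exact absurd ⟨fun h' => absurd h' hb, fun h' => h'.1⟩ h
    · rw [if_neg ho] at h
      exact absurd Iff.rfl h
  have hfreq : ∀ (P Q : ℕ → Prop), FU Q δ → (∀ m, m % 2 = 1 → (Q m ↔ P m)) → Frequency P δ := by
    intro P Q hQ hPQ r t B ht K ε hε
    obtain ⟨N₀, H⟩ := war_odd hQ r t B ht K hε
    refine ⟨N₀, fun N hN L a n hS => ?_⟩
    obtain ⟨g1, ⟨J, hJ, hJ2⟩, g3⟩ := hS
    have h5 := H N hN L a g1 J hJ hJ2 n g3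
    have e1 : (repsOdd P n a : ℝ) = repSum (fun m => if m % 2 = 1 ∧ Q m then 1 else 0) n a := by
      rw [repsOdd_sum]
      congr 1
      funext m
      by_cases ho : m % 2 = 1
      · by_cases hp : P m
        · rw [if_pos ⟨ho, hp⟩, if_pos ⟨ho, (hPQ m ho).2 hp⟩]
        · rw [if_neg (fun h' => hp h'.2), if_neg (fun h' => hp ((hPQ m ho).1 h'.2))]
      · rw [if_neg (fun h' => ho h'.1), if_neg (fun h' => ho h'.1)]
    rw [e1, repsOdd_true]
    exact h5
  have havg : ∀ Λ : ℝ, c < Λ → ∀ (r t B : ℕ), 1 ≤ t → ∀ K ε : ℝ, 0 < ε → ∃ N₀ : ℕ, ∀ N : ℕ, N₀ ≤ N →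
      ∀ (L : Fin r → ℕ) (a : ∀ j, Fin (L j) → ℤ) (n : ℤ), Situation t B K N L a n →
        |sumOdd (truncated (Λ * Real.log N)) n a
          - (δ * c + (1 - δ) * Λ) * Real.log N * repsOdd (fun _ => True) n a|
          ≤ ε * Real.log N * ∏ j, (L j : ℝ) := by
    intro Λ hΛ r t B ht K ε hε
    obtain ⟨N₀, H⟩ := war_avg hF hc0 hΛ (fun n => Nat.cast_nonneg _) hlln r t B ht K hε
    refine ⟨N₀, fun N hN L a n hS => ?_⟩
    obtain ⟨g1, ⟨J, hJ, hJ2⟩, g3⟩ := hS
    have h5 := H N hN L a g1 J hJ hJ2 n g3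
    rw [repsOdd_true, sumOdd_eq (truncated (Λ * Real.log N)) (fun m => if Bas m then min (s m) (Λ * Real.log N)
      else Λ * Real.log N) (fun m hm => ?_)]
    · exact h5
    · unfold truncated
      by_cases hb : Bas m
      · rw [if_neg ((fin_bas hm).2 hb), if_pos hb]
      · have : height m = ⊤ := by
          by_contra hcon
          exact hb ((fin_bas hm).1 hcon)
        rw [if_pos this, if_neg hb]
  refine ⟨δ, h0, h1, ⟨hone, fun h => h2.2 (hall.1 h)⟩, hdens, hfreq _ Bas hF (fun m hm => (fin_bas hm).symm),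
    fun η hη => ?_, havg, ?_, fun F hF' => ?_, fun k hk => ?_⟩
  · obtain ⟨Q, hQ, hQ2⟩ := hT η hη
    exact hfreq _ Q hQ hQ2
  · intro Λ θ K r t B ψ hΛ hθ ht hψ h
    refine hone ?_
    by_contra hcon
    have hδ : 0 < 1 - δ := by
      rcases h1.lt_or_eq with h6 | h6
      · linarith
      · exact absurd h6 hcon
    set D : ℝ := (1 - δ) * (Λ - c) with hD
    have hD0 : 0 < D := mul_pos hδ (by linarith)
    obtain ⟨N₀, H⟩ := havg Λ hΛ r t B ht K (D * θ / 4) (by positivity)
    have h6 : ∀ᶠ N : ℕ in atTop, ψ N < D / 2 := (tendsto_order.1 hψ).2 _ (by positivity)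
    obtain ⟨N, ⟨L, a, n, g1, g2, g3, g4⟩, h7, h8⟩ := (h.and_eventually (h6.and (eventually_ge_atTop (N₀ + 2)))).exists
    have h9 := (abs_le.1 (H N (by omega) L a n g1)).1
    have hlog : 0 < Real.log N := Real.log_pos (by exact_mod_cast (by omega : 1 < N))
    set R : ℝ := (repsOdd (fun _ => True) n a : ℝ) with hR
    have hR0 : 0 < R := by rw [hR]; exact_mod_cast g2
    have h10 : (δ * c + (1 - δ) * Λ) * Real.log N * R - D * θ / 4 * Real.log N * ∏ j, (L j : ℝ)
        ≤ (c + ψ N) * Real.log N * R := by linarith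
    have h11 : D * θ / 4 * Real.log N * ∏ j, (L j : ℝ) ≤ D / 4 * Real.log N * R := by
      calc _ = D / 4 * Real.log N * (θ * ∏ j, (L j : ℝ)) := by ring
        _ ≤ D / 4 * Real.log N * R := mul_le_mul_of_nonneg_left g3 (by positivity)
    have h12 : ψ N * (Real.log N * R) < D / 2 * (Real.log N * R) := mul_lt_mul_of_pos_right h7 (by positivity)
    have h13 : (δ * c + (1 - δ) * Λ) * Real.log N * R = c * (Real.log N * R) + D * (Real.log N * R) := by
      rw [hD]; ring
    have h14 : 0 < D * (Real.log N * R) := by positivity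
    nlinarith
  · obtain ⟨t₀, C, -, H⟩ := Pool.Agent.Results.MP_d02c56_nt.WaringProblem.poly_spread F hF'
    exact ⟨t₀ + 1, by omega, C, fun B L N hN hNL => H (t₀ + 1) (by omega) B L N hN hNL⟩
  · obtain ⟨r₀, hr₀, H⟩ := every_odd hk
    refine ⟨r₀, hr₀, fun r hr => ⟨fun η hη => ?_, fun ψ hψ h => ?_⟩⟩
    · obtain ⟨Q, hQ, hQ2⟩ := hT η hη
      obtain ⟨κ, hκ, n₀, h5⟩ := H r hr Q δ hQ h0
      refine ⟨κ, hκ, n₀, fun n hn => ?_⟩
      have e : powReps (Typical η) n k r = powReps Q n k r := by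
        unfold powReps
        congr 1
        ext m
        simp only [Set.mem_ofPred_eq]
        refine and_congr_right fun _ => and_congr_right fun _ => and_congr_right fun g => ?_
        exact (hQ2 _ (Nat.odd_iff.1 g)).symm
      rw [e, powReps_eq]
      exact h5 n hn
    · refine hone ?_
      by_contra hcon
      have hδ : 0 < 1 - δ := by
        rcases h1.lt_or_eq with h6 | h6
        · linarith
        · exact absurd h6 hcon
      obtain ⟨κ, hκ, n₀, h5⟩ := H r hr (fun m => ¬ Bas m) (1 - δ) (fu_not hF) hδ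
      have h6 : ∀ᶠ n : ℕ in atTop, ψ n < κ := (tendsto_order.1 hψ).2 κ hκ
      obtain ⟨n, h7, h8, h9⟩ := (h.and_eventually (h6.and (eventually_ge_atTop (n₀ + 1)))).exists
      have hn0 : (0 : ℝ) < n := by exact_mod_cast (by omega : 0 < n)
      have h10 := h5 n (by omega)
      have e : powReps (fun m => height m = ⊤) n k r = powReps (fun m => ¬ Bas m) n k r := by
        unfold powReps
        congr 1
        ext m
        simp only [Set.mem_ofPred_eq]
        refine and_congr_right fun _ => and_congr_right fun _ => and_congr_right fun g => ?_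
        rw [← fin_bas (Nat.odd_iff.1 g), not_not]
      rw [e, powReps_eq] at h7
      have h11 : ψ n * (n : ℝ) ^ ((r : ℝ) / k) < κ * (n : ℝ) ^ ((r : ℝ) / k) :=
        mul_lt_mul_of_pos_right h8 (by positivity)
      linarith

end Pool.Agent.Results.MP_2b866c_nt.HeightsInWaringProblem
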